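import Pool.Agent.Lib.MP_63c928_gt.LN.Tree

/-! Groups acting on trees: two criteria for membership in `Generated Q`. -/

namespace FJ63

open SimpleGraph

variable {Q : Type} [Group Q]

theorem mem_stab {G V : Type} [Group G] {ρ : G →* Equiv.Perm V} {v : V} {g : G} :
    g ∈ stab ρ v ↔ ρ g v = v := Iff.rfl

theorem Generated.tree' {L V : Type} [Group L] (T : SimpleGraph V) (ρ : L →* Equiv.Perm V)
    (k : ℕ) (hT : T.IsTree) (hadj : ∀ g u v, T.Adj u v → T.Adj (ρ g u) (ρ g v))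
    (hinv : ∀ g u v, T.Adj u v → ρ g u = v → ρ g v ≠ u)
    (hac : ∀ u v, k ≤ T.dist u v → ∀ g, ρ g u = u → ρ g v = v → g = 1)
    (hst : ∀ v, Generated Q (stab ρ v)) : Generated Q L := by
  refine Generated.tree L V T ρ k 1 hT hadj hinv ?_ hst
  intro u v huv
  have : stab ρ u ⊓ stab ρ v = ⊥ := by
    rw [eq_bot_iff]
    intro g hg
    exact hac u v huv g hg.1 hg.2
  rw [this]
  exact ⟨inferInstance, by simp⟩

theorem Generated.free {L V : Type} [Group L] (T : SimpleGraph V) (ρ : L →* Equiv.Perm V)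
    (hT : T.IsTree) (hadj : ∀ g u v, T.Adj u v → T.Adj (ρ g u) (ρ g v))
    (hinv : ∀ g u v, T.Adj u v → ρ g u = v → ρ g v ≠ u)
    (hfree : ∀ g v, ρ g v = v → g = 1) : Generated Q L := by
  refine Generated.tree' T ρ 0 hT hadj hinv (fun u v _ g hu _ => hfree g u hu) ?_
  intro v
  refine Generated.of_comm ?_
  intro a b
  rw [show a = 1 from Subtype.ext (hfree a v a.2)]
  simp

theorem exists_fixed_path {V : Type} {T : SimpleGraph V} (hT : T.IsTree) (σ : Equiv.Perm V)
    (hσ : ∀ u v, T.Adj u v → T.Adj (σ u) (σ v)) {x y : V} (hx : σ x = x) (hy : σ y = y) :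
    ∃ a : ℕ → V, (∀ i, σ (a i) = a i) ∧ (∀ i < T.dist x y, T.Adj (a i) (a (i + 1))) ∧
      ∀ i j, i ≤ T.dist x y → j ≤ T.dist x y → a i = a j → i = j := by
  obtain ⟨p, hp, hl⟩ := (hT.connected.preconnected x y).exists_path_of_dist
  have := fix_walk hT.isAcyclic σ hσ p hp hx hy
  refine ⟨p.getVert, fun i => this _ (p.getVert_mem_support i), ?_, ?_⟩
  · intro i hi
    exact p.adj_getVert_succ (hl ▸ hi)
  · intro i j hi hj h
    exact hp.getVert_injOn (by simpa [hl] using hi) (by simpa [hl] using hj) h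

/-- Acting on the tree of cylinders. -/
theorem Generated.of_cyl {L V : Type} [Group L] (T : SimpleGraph V) (ρ : L →* Equiv.Perm V)
    (hT : T.IsTree) (hadj : ∀ g u v, T.Adj u v → T.Adj (ρ g u) (ρ g v))
    (κ : V → ℤ) (δ : L →* Multiplicative ℤ) (hκ : ∀ g v, κ (ρ g v) = κ v + (δ g).toAdd)
    (hac : ∀ g x y z, ρ g x = x → ρ g y = y → ρ g z = z → T.Adj x y → T.Adj x z →
      min (κ x) (κ y) ≠ min (κ x) (κ z) → g = 1)
    (hker : Generated Q δ.ker) : Generated Q L := by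
  let F : L →* Function.End (V × ℤ) :=
    { toFun := fun g p => (ρ g p.1, p.2 + (δ g).toAdd)
      map_one' := by funext p; simp [Function.End.one_def]
      map_mul' := by
        intro g g'
        funext p
        change (ρ (g * g') p.1, p.2 + (δ (g * g')).toAdd) =
          (ρ g (ρ g' p.1), p.2 + (δ g').toAdd + (δ g).toAdd)
        rw [map_mul, map_mul, Equiv.Perm.mul_apply, toAdd_mul]
        congr 1
        ring }
  let ρ₁ : L →* Equiv.Perm (V × ℤ) := F.toHomPerm
  have hρ₁ : ∀ g v c, ρ₁ g (v, c) = (ρ g v, c + (δ g).toAdd) := fun g v c => rfl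
  obtain ⟨ρ₂, hρ₂⟩ := exists_compAct (lay T κ) ρ₁ (by
    rintro g ⟨u, c⟩ ⟨w, c'⟩ ⟨h1, h2, h3⟩
    rw [hρ₁, hρ₁]
    refine ⟨by simpa using h1, hadj g u w h2, ?_⟩
    simp only [hκ] at h3 ⊢
    rw [min_add_add_right, h3])
  let ρ₃ : L →* Equiv.Perm (V ⊕ (lay T κ).ConnectedComponent) :=
    (Equiv.Perm.sumCongrHom _ _).comp (ρ.prod ρ₂)
  have hl : ∀ g v, ρ₃ g (Sum.inl v) = Sum.inl (ρ g v) := fun g v => rfl
  have hr : ∀ g v c, ρ₃ g (Sum.inr ((lay T κ).connectedComponentMk (v, c))) =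
      Sum.inr ((lay T κ).connectedComponentMk (ρ g v, c + (δ g).toAdd)) := by
    intro g v c
    change Sum.inr (ρ₂ g _) = _
    rw [hρ₂, hρ₁]
  have hadj₃ : ∀ g a b, (cyl T κ).Adj a b → (cyl T κ).Adj (ρ₃ g a) (ρ₃ g b) := by
    rintro g _ _ ⟨v, c, ⟨rfl, rfl⟩ | ⟨rfl, rfl⟩⟩
    · exact ⟨_, _, Or.inl ⟨hl g v, hr g v c⟩⟩
    · exact ⟨_, _, Or.inr ⟨hl g v, hr g v c⟩⟩
  have hL : ∀ x b, (cyl T κ).Adj (Sum.inl x) b →
      ∃ c, b = Sum.inr ((lay T κ).connectedComponentMk (x, c)) := by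
    rintro x _ ⟨v, c, ⟨h, rfl⟩ | ⟨rfl, h⟩⟩
    · cases h; exact ⟨c, rfl⟩
    · cases h
  have hR : ∀ Z b, (cyl T κ).Adj (Sum.inr Z) b →
      ∃ y c, b = Sum.inl y ∧ Z = (lay T κ).connectedComponentMk (y, c) := by
    rintro Z _ ⟨v, c, ⟨h, rfl⟩ | ⟨rfl, h⟩⟩
    · cases h
    · cases h; exact ⟨v, c, rfl, rfl⟩
  -- a fixed neighbour inside a layer
  have hnbr : ∀ g x y c c', ρ g x = x → ρ g y = y → x ≠ y →
      (lay T κ).connectedComponentMk (x, c) = (lay T κ).connectedComponentMk (y, c') →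
      ∃ z, T.Adj x z ∧ ρ g z = z ∧ min (κ x) (κ z) = c := by
    intro g x y c c' hx hy hne he
    let T₀ : SimpleGraph V :=
      { Adj := fun u w => T.Adj u w ∧ min (κ u) (κ w) = c
        symm := ⟨fun _ _ h => ⟨h.1.symm, by rw [min_comm, h.2]⟩⟩
        loopless := ⟨fun _ h => T.irrefl h.1⟩ }
    have hre : T₀.Reachable x y := by
      refine reach_ind (G := lay T κ) (fun q => T₀.Reachable x q.1) (Reachable.refl _) ?_
        (ConnectedComponent.exact he)
      intro p q hp hpq ih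
      refine ih.trans (Adj.reachable ⟨hpq.2.1, ?_⟩)
      rw [hpq.2.2]
      exact (lay_level hp).symm
    obtain ⟨z, hz, hz'⟩ := fix_nbr hT.isAcyclic (T₀ := T₀) (fun _ _ h => h.1) (ρ g) (hadj g)
      hx hy hne hre
    exact ⟨z, hz.1, hz', hz.2⟩
  refine Generated.tree' (cyl T κ) ρ₃ 5 (cyl_isTree hT κ) hadj₃ ?_ ?_ ?_
  · rintro g _ _ ⟨v, c, ⟨rfl, rfl⟩ | ⟨rfl, rfl⟩⟩ h
    · rw [hl] at h; cases h
    · rw [hr] at h; cases h
  · intro u v huv g hu hv
    obtain ⟨a, ha, hadj', hinj⟩ := exists_fixed_path (cyl_isTree hT κ) (ρ₃ g) (hadj₃ g) hu hv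
    have key : ∀ i x₀, i ≤ 1 → a i = Sum.inl x₀ → g = 1 := by
      intro i x₀ hi h0
      obtain ⟨c₁, h1⟩ := hL x₀ _ (h0 ▸ hadj' i (by omega))
      obtain ⟨x₁, c₁', h2, e1⟩ := hR _ _ (h1 ▸ hadj' (i + 1) (by omega))
      obtain ⟨c₂, h3⟩ := hL x₁ _ (h2 ▸ hadj' (i + 1 + 1) (by omega))
      obtain ⟨x₂, c₂', h4, e2⟩ := hR _ _ (h3 ▸ hadj' (i + 1 + 1 + 1) (by omega))
      have f0 : ρ g x₀ = x₀ := by
        have := ha i; rw [h0, hl] at this; exact Sum.inl_injective this
      have f1 : ρ g x₁ = x₁ := by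
        have := ha (i + 1 + 1); rw [h2, hl] at this; exact Sum.inl_injective this
      have f2 : ρ g x₂ = x₂ := by
        have := ha (i + 1 + 1 + 1 + 1); rw [h4, hl] at this; exact Sum.inl_injective this
      have n1 : x₁ ≠ x₀ := by
        rintro rfl
        have := hinj i (i + 1 + 1) (by omega) (by omega) (h0.trans h2.symm)
        omega
      have n2 : x₁ ≠ x₂ := by
        rintro rfl
        have := hinj (i + 1 + 1) (i + 1 + 1 + 1 + 1) (by omega) (by omega) (h2.trans h4.symm)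
        omega
      have n3 : c₁' ≠ c₂ := by
        rintro rfl
        have := hinj (i + 1) (i + 1 + 1 + 1) (by omega) (by omega) (by rw [h1, h3, e1])
        omega
      obtain ⟨y, hy1, hy2, hy3⟩ := hnbr g x₁ x₀ c₁' c₁ f1 f0 n1 e1.symm
      obtain ⟨z, hz1, hz2, hz3⟩ := hnbr g x₁ x₂ c₂ c₂' f1 f2 n2 e2
      exact hac g x₁ y z f1 hy2 hz2 hy1 hz1 (by rw [hy3, hz3]; exact n3)
    rcases h0 : a 0 with x | Z
    · exact key 0 x (by omega) h0
    · obtain ⟨y, c, h1, -⟩ := hR _ _ (h0 ▸ hadj' 0 (by omega))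
      exact key 1 y le_rfl h1
  · intro v
    refine Generated.of_le ?_ hker
    intro g hg
    rw [mem_stab] at hg
    rw [MonoidHom.mem_ker]
    rcases v with x | Z
    · rw [hl] at hg
      have := hκ g x
      rw [Sum.inl_injective hg] at this
      exact toAdd_eq_zero.1 (by omega)
    · induction Z using ConnectedComponent.ind with | _ p =>
      obtain ⟨x, c⟩ := p
      rw [hr] at hg
      have := lay_level (ConnectedComponent.exact (Sum.inr_injective hg))
      exact toAdd_eq_zero.1 (by simpa using this)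

theorem exists_finiteIndex_dvd {L : Type} [Group L] (δ : L →* Multiplicative ℤ) (n : ℤ)
    (hn : n ≠ 0) : ∃ L₀ : Subgroup L, L₀.FiniteIndex ∧ ∀ g, g ∈ L₀ ↔ n ∣ (δ g).toAdd := by
  have : NeZero n.natAbs := ⟨Int.natAbs_ne_zero.2 hn⟩
  let φ : L →* Multiplicative (ZMod n.natAbs) :=
    (AddMonoidHom.toMultiplicative (Int.castAddHom (ZMod n.natAbs))).comp δ
  refine ⟨φ.ker, Subgroup.finiteIndex_ker φ, fun g => ?_⟩
  rw [MonoidHom.mem_ker, ← Int.natAbs_dvd, ← ZMod.intCast_zmod_eq_zero_iff_dvd]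
  exact Iff.rfl

theorem slab_step (n x : ℤ) (hn : 0 < n) (h : x + 1 - (x + 1) % n ≠ x - x % n) :
    x + 1 = x - x % n + n ∧ (x + 1) % n = 0 := by
  have h1 := Int.emod_nonneg x hn.ne'
  have h2 := Int.emod_lt_of_pos x hn
  have h3 := Int.emod_add_mul_ediv x n
  by_cases hc : x % n + 1 < n
  · exfalso
    apply h
    have : (x + 1) % n = x % n + 1 := by
      have e : x + 1 = (x % n + 1) + n * (x / n) := by omega
      rw [e, Int.add_mul_emod_self_left]
      exact Int.emod_eq_of_lt (by omega) hc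
    omega
  · refine ⟨by omega, ?_⟩
    have e : x + 1 = n * (x / n + 1) := by rw [mul_add]; omega
    rw [e, Int.mul_emod_right]

/-- Separation criterion: fixed subtrees of nontrivial elements have bounded height. -/
theorem Generated.of_sep {L V : Type} [Group L] (T : SimpleGraph V) (ρ : L →* Equiv.Perm V)
    (hT : T.IsTree) (hadj : ∀ g u v, T.Adj u v → T.Adj (ρ g u) (ρ g v))
    (h : V → ℤ) (η : L →* Multiplicative ℤ) (hh : ∀ g v, h (ρ g v) = h v + (η g).toAdd)
    (hedge : ∀ u w, T.Adj u w → h w = h u + 1 ∨ h u = h w + 1) (M : ℕ)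
    (hM : ∀ g p q, ρ g p = p → ρ g q = q → g ≠ 1 → h p - h q ≤ M)
    (hker : Generated Q η.ker) : Generated Q L := by
  set n : ℤ := M + 1 with hn
  have hn0 : 0 < n := by omega
  obtain ⟨L₀, hfi, hL₀⟩ := exists_finiteIndex_dvd η n hn0.ne'
  refine Generated.finiteIndex L L₀ hfi ?_
  let K : V → ℤ := fun v => h v - h v % n
  have hK : ∀ (g : L₀) v, K (ρ g v) = K v + (η g).toAdd := by
    intro g v
    obtain ⟨m, hm⟩ := (hL₀ g).1 g.2
    simp only [K, hh, hm, Int.add_mul_emod_self_left]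
    ring
  let T₀ : SimpleGraph V :=
    { Adj := fun u w => T.Adj u w ∧ K u = K w
      symm := ⟨fun _ _ h => ⟨h.1.symm, h.2.symm⟩⟩
      loopless := ⟨fun _ h => T.irrefl h.1⟩ }
  have h0 : T₀ ≤ T := fun _ _ h => h.1
  let ρ₀ : L₀ →* Equiv.Perm V := ρ.comp L₀.subtype
  have hadj₀ : ∀ (g : L₀) u v, T.Adj u v → T.Adj (ρ₀ g u) (ρ₀ g v) := fun g => hadj g
  obtain ⟨ρ₁, hρ₁⟩ := exists_compAct T₀ ρ₀ (by
    intro g u v huv
    refine ⟨hadj g u v huv.1, ?_⟩
    change K (ρ g u) = K (ρ g v)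
    rw [hK, hK, huv.2])
  let κ : T₀.ConnectedComponent → ℤ := ConnectedComponent.lift K
    (fun x y p _ => reach_inv (G := T₀) K (fun _ _ h => h.2) ⟨p⟩)
  have hκ : ∀ v, κ (T₀.connectedComponentMk v) = K v := fun v => rfl
  have hfix : ∀ (g : L₀) a b, ρ₁ g a = a → ρ₁ g b = b → (collapse T T₀).Adj a b →
      ∃ p, ρ g p = p ∧ h p = min (κ a) (κ b) + n ∧ h p % n = 0 := by
    rintro g _ _ ha hb ⟨hne, u, w, huw, rfl, rfl⟩
    rw [hρ₁] at ha hb
    obtain ⟨e1, e2⟩ := collapse_unique hT.isAcyclic h0 huw hne (hadj₀ g u w huw) ha hb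
    have hKne : K u ≠ K w := fun e =>
      hne (ConnectedComponent.sound (Adj.reachable (G := T₀) ⟨huw, e⟩))
    rw [hκ, hκ]
    rcases hedge u w huw with e | e
    · obtain ⟨s1, s2⟩ := slab_step n (h u) hn0 (by
        intro e'; apply hKne; simp only [K]; rw [e, e'])
      refine ⟨w, e2, ?_, by rw [e]; exact s2⟩
      simp only [K]
      rw [e, s2]
      omega
    · obtain ⟨s1, s2⟩ := slab_step n (h w) hn0 (by
        intro e'; apply hKne; simp only [K]; rw [e, e'])
      refine ⟨u, e1, ?_, by rw [e]; exact s2⟩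
      simp only [K]
      rw [e, s2]
      omega
  refine Generated.of_cyl (collapse T T₀) ρ₁ (collapse_isTree hT h0)
    (collapse_adj_act hadj₀ hρ₁) κ (η.comp L₀.subtype) ?_ ?_ ?_
  · intro g a
    induction a using ConnectedComponent.ind with | _ v =>
    rw [hρ₁, hκ, hκ]
    exact hK g v
  · intro g x y z hx hy hz hxy hxz hne
    obtain ⟨p, hp1, hp2, hp3⟩ := hfix g x y hx hy hxy
    obtain ⟨q, hq1, hq2, hq3⟩ := hfix g x z hx hz hxz
    by_contra hg
    have hg' : (g : L) ≠ 1 := fun e => hg (Subtype.ext e)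
    have b1 := hM g p q hp1 hq1 hg'
    have b2 := hM g q p hq1 hp1 hg'
    have hd : n ∣ |h p - h q| :=
      (dvd_abs _ _).2 (dvd_sub (Int.dvd_of_emod_eq_zero hp3) (Int.dvd_of_emod_eq_zero hq3))
    have := Int.le_of_dvd (abs_pos.2 (by omega)) hd
    rcases abs_cases (h p - h q) with h' | h' <;> omega
  · refine Generated.of_map_le L₀.subtype _ η.ker (fun x _ hx => Subtype.ext hx)
      (fun x hx => hx) hker

/-- A group with a central element of infinite order detected by `δ`, and good `δ`-kernel. -/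
theorem Generated.of_central {Z : Type} [Group Z] (δ : Z →* Multiplicative ℤ) (z : Z)
    (hz : ∀ g, g * z = z * g) (hδ : δ z ≠ 1) (hker : Generated Q δ.ker) : Generated Q Z := by
  have hN : (Subgroup.zpowers z).Normal := ⟨by
    rintro _ ⟨k, rfl⟩ g
    refine ⟨k, ?_⟩
    have : Commute g z := hz g
    simp only
    rw [(this.zpow_right k).eq, mul_inv_cancel_right]⟩
  have hδ' : (δ z).toAdd ≠ 0 := fun e => hδ (toAdd_eq_zero.1 e)
  refine Generated.ext' (QuotientGroup.mk' (Subgroup.zpowers z)) ?_ ?_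
  · obtain ⟨L₀, hfi, hL₀⟩ := exists_finiteIndex_dvd δ _ hδ'
    have hle : L₀.map (QuotientGroup.mk' (Subgroup.zpowers z)) ≤
        δ.ker.map (QuotientGroup.mk' (Subgroup.zpowers z)) := by
      rintro _ ⟨g, hg, rfl⟩
      obtain ⟨m, hm⟩ := (hL₀ g).1 hg
      refine ⟨g * z ^ (-m), ?_, ?_⟩
      · rw [SetLike.mem_coe, MonoidHom.mem_ker, ← toAdd_eq_zero, map_mul, map_zpow, toAdd_mul,
          toAdd_zpow, hm]
        simp [mul_comm]
      · rw [map_mul]
        have : QuotientGroup.mk' (Subgroup.zpowers z) (z ^ (-m)) = 1 :=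
          (QuotientGroup.eq_one_iff _).2 ⟨-m, rfl⟩
        rw [this, mul_one]
    have hfi2 : (L₀.map (QuotientGroup.mk' (Subgroup.zpowers z))).FiniteIndex :=
      ⟨fun e => hfi.index_ne_zero (Nat.eq_zero_of_zero_dvd
        (e ▸ Subgroup.index_map_dvd L₀ (QuotientGroup.mk'_surjective _)))⟩
    refine Generated.finiteIndex _ _ (Subgroup.finiteIndex_of_le hle) ?_
    refine Generated.of_equiv (MulEquiv.ofBijective
      ((QuotientGroup.mk' (Subgroup.zpowers z)).subgroupMap δ.ker) ⟨?_, ?_⟩).symm hker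
    · rw [injective_iff_map_eq_one]
      intro x hx
      have h1 : (x : Z) ∈ Subgroup.zpowers z :=
        (QuotientGroup.eq_one_iff _).1 (congrArg Subtype.val hx)
      obtain ⟨k, hk⟩ := h1
      have h2 : δ x = 1 := x.2
      simp only at hk
      rw [← hk, ← toAdd_eq_zero, map_zpow, toAdd_zpow, smul_eq_mul, mul_eq_zero] at h2
      rcases h2 with h2 | h2
      · apply Subtype.ext
        rw [← hk, h2]; simp
      · exact absurd h2 hδ'
    · exact MonoidHom.subgroupMap_surjective _ _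
  · intro g
    refine Generated.of_comm ?_
    have key : ∀ a : Z, a ∈ (Subgroup.zpowers (QuotientGroup.mk' (Subgroup.zpowers z) g)).comap
        (QuotientGroup.mk' (Subgroup.zpowers z)) → ∃ k m : ℤ, a = g ^ k * z ^ m := by
      rintro a ⟨k, hk⟩
      simp only at hk
      rw [← map_zpow, QuotientGroup.mk'_apply, QuotientGroup.mk'_apply, QuotientGroup.eq] at hk
      obtain ⟨m, hm⟩ := hk
      refine ⟨k, m, ?_⟩
      simp only at hm
      rw [hm]; group
    rintro ⟨a, ha⟩ ⟨b, hb⟩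
    obtain ⟨k, m, rfl⟩ := key a ha
    obtain ⟨k', m', rfl⟩ := key b hb
    apply Subtype.ext
    have c : Commute g z := hz g
    exact (((Commute.refl g).zpow_zpow k k').mul_right (c.zpow_zpow k m')).mul_left
      ((c.symm.zpow_zpow m k').mul_right ((Commute.refl z).zpow_zpow m m'))

/-- Trees with a homomorphism to `ℤ` that is injective on vertex stabilisers. -/
theorem Generated.of_int {L V : Type} [Group L] (T : SimpleGraph V) (ρ : L →* Equiv.Perm V)
    (hT : T.IsTree) (hadj : ∀ g u v, T.Adj u v → T.Adj (ρ g u) (ρ g v))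
    (hinv : ∀ g u v, T.Adj u v → ρ g u = v → ρ g v ≠ u) (δ : L →* Multiplicative ℤ)
    (hδ : ∀ g v, ρ g v = v → δ g = 1 → g = 1) : Generated Q L := by
  classical
  have hfz : ∀ (z : L) (k : ℤ) v, ρ z v = v → ρ (z ^ k) v = v := by
    intro z k v hv
    exact (stab ρ v).zpow_mem (mem_stab.2 hv) k
  have hcomb : ∀ z₁ z₂ x, z₁ ≠ 1 → z₂ ≠ 1 → ρ z₁ x = x → ρ z₂ x = x →
      ∃ z, z ≠ 1 ∧ (∀ v, ρ z₁ v = v → ρ z v = v) ∧ ∀ v, ρ z₂ v = v → ρ z v = v := by
    intro z₁ z₂ x h1 h2 f1 f2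
    have d1 : (δ z₁).toAdd ≠ 0 := fun e => h1 (hδ _ x f1 (toAdd_eq_zero.1 e))
    have d2 : (δ z₂).toAdd ≠ 0 := fun e => h2 (hδ _ x f2 (toAdd_eq_zero.1 e))
    have e : z₁ ^ (δ z₂).toAdd = z₂ ^ (δ z₁).toAdd := by
      rw [← mul_inv_eq_one]
      refine hδ _ x (mem_stab.1 ((stab ρ x).mul_mem (hfz _ _ _ f1)
        ((stab ρ x).inv_mem (hfz _ _ _ f2)))) ?_
      rw [← toAdd_eq_zero, map_mul, map_inv, map_zpow, map_zpow, toAdd_mul, toAdd_inv,
        toAdd_zpow, toAdd_zpow, smul_eq_mul, smul_eq_mul]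
      ring
    refine ⟨z₁ ^ (δ z₂).toAdd, ?_, fun v hv => hfz _ _ _ hv, fun v hv => e ▸ hfz _ _ _ hv⟩
    intro e'
    have := congrArg (fun g => (δ g).toAdd) e'
    simp only [map_zpow, toAdd_zpow, smul_eq_mul, map_one, toAdd_one, mul_eq_zero] at this
    tauto
  let T₀ : SimpleGraph V :=
    { Adj := fun u w => T.Adj u w ∧ ∃ z, z ≠ 1 ∧ ρ z u = u ∧ ρ z w = w
      symm := ⟨fun _ _ ⟨h, z, h1, h2, h3⟩ => ⟨h.symm, z, h1, h3, h2⟩⟩
      loopless := ⟨fun _ h => T.irrefl h.1⟩ }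
  have h0 : T₀ ≤ T := fun _ _ h => h.1
  obtain ⟨ρ₁, hρ₁⟩ := exists_compAct T₀ ρ (by
    rintro g u v ⟨huv, z, h1, h2, h3⟩
    refine ⟨hadj g u v huv, g * z * g⁻¹, ?_, ?_, ?_⟩
    · intro e; apply h1
      have : z = g⁻¹ * (g * z * g⁻¹) * g := by group
      rw [this, e]; group
    · simp [h2]
    · simp [h3])
  have hadj₁ := collapse_adj_act hadj hρ₁
  have hR : ∀ x y, T₀.Reachable x y → x = y ∨ ∃ z, z ≠ 1 ∧ ρ z x = x ∧ ρ z y = y := by
    intro x y hxy
    refine reach_ind (G := T₀) (fun y => x = y ∨ ∃ z, z ≠ 1 ∧ ρ z x = x ∧ ρ z y = y)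
      (Or.inl rfl) ?_ hxy
    rintro y y' - ⟨-, z, h1, h2, h3⟩ ih
    right
    rcases ih with rfl | ⟨z', h1', h2', h3'⟩
    · exact ⟨z, h1, h2, h3⟩
    · obtain ⟨w, w1, w2, w3⟩ := hcomb z z' y h1 h1' h2 h3'
      exact ⟨w, w1, w3 _ h2', w2 _ h3⟩
  refine Generated.tree' (collapse T T₀) ρ₁ 1 (collapse_isTree hT h0) hadj₁ ?_ ?_ ?_
  · rintro g _ _ ⟨hne, u, w, huw, rfl, rfl⟩ ha hb
    rw [hρ₁] at ha hb
    obtain ⟨e1, e2⟩ := collapse_unique hT.isAcyclic h0 huw hne (hadj g u w huw).symm hb ha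
    exact hinv g u w huw e2 e1
  · intro a b hab g ha hb
    have hne : a ≠ b := by
      rintro rfl
      simp at hab
    obtain ⟨c, ⟨hne', u, w, huw, rfl, rfl⟩, hc⟩ := fix_nbr (collapse_isTree hT h0).isAcyclic le_rfl
      (ρ₁ g) (hadj₁ g) ha hb hne ((collapse_isTree hT h0).connected.preconnected a b)
    rw [hρ₁] at ha hc
    obtain ⟨e1, e2⟩ := collapse_unique hT.isAcyclic h0 huw hne' (hadj g u w huw) ha hc
    by_contra hg
    exact hne' (ConnectedComponent.sound (Adj.reachable (G := T₀) ⟨huw, g, hg, e1, e2⟩))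
  · intro a
    induction a using ConnectedComponent.ind with | _ u =>
    have hmem : ∀ g ∈ stab ρ₁ (T₀.connectedComponentMk u),
        u = ρ g u ∨ ∃ z, z ≠ 1 ∧ ρ z u = u ∧ ρ z (ρ g u) = ρ g u := by
      intro g hg
      rw [mem_stab, hρ₁] at hg
      exact hR _ _ (ConnectedComponent.exact hg).symm
    by_cases hu : ∃ z, z ≠ 1 ∧ ρ z u = u
    · refine Generated.of_local' _ fun s hs => ?_
      have : ∃ z, z ≠ 1 ∧ ρ z u = u ∧ ∀ g ∈ s, ρ z (ρ g u) = ρ g u := by
        induction s using Finset.induction_on with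
        | empty =>
          obtain ⟨z, h1, h2⟩ := hu
          exact ⟨z, h1, h2, by simp⟩
        | insert g s _ ih =>
          obtain ⟨z, h1, h2, h3⟩ := ih (fun x hx => hs (by simp [hx]))
          rcases hmem g (hs (by simp)) with e | ⟨z', h1', h2', h3'⟩
          · refine ⟨z, h1, h2, ?_⟩
            intro g' hg'
            rcases Finset.mem_insert.1 hg' with rfl | hg'
            · rw [← e, h2]
            · exact h3 g' hg'
          · obtain ⟨w, w1, w2, w3⟩ := hcomb z z' u h1 h1' h2 h2'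
            refine ⟨w, w1, w2 _ h2, ?_⟩
            intro g' hg'
            rcases Finset.mem_insert.1 hg' with rfl | hg'
            · exact w3 _ h3'
            · exact w2 _ (h3 g' hg')
      obtain ⟨z, h1, h2, h3⟩ := this
      refine ⟨Subgroup.centralizer {z}, ?_, ?_⟩
      · intro g hg
        rw [SetLike.mem_coe, Subgroup.mem_centralizer_singleton_iff]
        have : z⁻¹ * (g * z * g⁻¹) = 1 := by
          refine hδ _ (ρ g u) (mem_stab.1 ((stab ρ _).mul_mem
            ((stab ρ _).inv_mem (h3 g hg)) ?_)) ?_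
          · rw [mem_stab]; simp [h2]
          · simp [map_mul, mul_comm]
        calc g * z = z * (z⁻¹ * (g * z * g⁻¹)) * g := by group
          _ = z * g := by rw [this, mul_one]
      · refine Generated.of_central (δ.comp (Subgroup.subtype _))
          ⟨z, Subgroup.mem_centralizer_singleton_iff.2 rfl⟩ ?_ ?_ ?_
        · intro g
          exact Subtype.ext (Subgroup.mem_centralizer_singleton_iff.1 g.2)
        · intro e
          exact h1 (hδ z u h2 e)
        · refine Generated.free T ((ρ.comp (Subgroup.subtype _)).comp (Subgroup.subtype _)) hT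
            (fun g => hadj _) (fun g => hinv _) ?_
          intro g v hv
          exact Subtype.ext (Subtype.ext (hδ _ v hv g.2))
    · refine Generated.of_comm ?_
      intro a b
      have : (a : L) = 1 := by
        by_contra ha
        rcases hmem a a.2 with e | ⟨z, h1, h2, -⟩
        · exact hu ⟨a, ha, e.symm⟩
        · exact hu ⟨z, h1, h2⟩
      rw [show a = 1 from Subtype.ext this]
      simp

/-- Trees with a homomorphism to a good group that is injective on vertex stabilisers. -/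
theorem Generated.of_inj {L V P : Type} [Group L] [Group P] (T : SimpleGraph V)
    (ρ : L →* Equiv.Perm V) (hT : T.IsTree) (hadj : ∀ g u v, T.Adj u v → T.Adj (ρ g u) (ρ g v))
    (hinv : ∀ g u v, T.Adj u v → ρ g u = v → ρ g v ≠ u) (ψ : L →* P) (hP : Generated Q P)
    (hψ : ∀ g v, ρ g v = v → ψ g = 1 → g = 1) : Generated Q L := by
  refine Generated.ext' ψ hP fun g₀ => ?_
  set q := ψ g₀
  set L' := (Subgroup.zpowers q).comap ψ
  by_cases hq : IsOfFinOrder q
  · let φ : L' →* Subgroup.zpowers q := (ψ.comp L'.subtype).codRestrict _ (fun x => x.2)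
    have : Finite (Subgroup.zpowers q) := finite_zpowers.2 hq
    refine Generated.finiteIndex _ φ.ker (Subgroup.finiteIndex_ker φ) ?_
    refine Generated.free T ((ρ.comp (Subgroup.subtype _)).comp (Subgroup.subtype _)) hT
      (fun g => hadj _) (fun g => hinv _) ?_
    intro g v hv
    exact Subtype.ext (Subtype.ext (hψ _ v hv (congrArg Subtype.val g.2)))
  · have hinj : Function.Injective (zpowersHom P q) := fun a b h =>
      Multiplicative.toAdd.injective (injective_zpow_iff_not_isOfFinOrder.2 hq h)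
    let φ : L' →* (zpowersHom P q).range := (ψ.comp L'.subtype).codRestrict _ (fun x => by
      obtain ⟨k, hk⟩ := x.2
      exact ⟨Multiplicative.ofAdd k, hk⟩)
    refine Generated.of_int T (ρ.comp (Subgroup.subtype _)) hT (fun g => hadj _)
      (fun g => hinv _) ((MonoidHom.ofInjective hinj).symm.toMonoidHom.comp φ) ?_
    intro g v hv hg
    have : φ g = 1 := (MonoidHom.ofInjective hinj).symm.map_eq_one_iff.1 hg
    exact Subtype.ext (hψ _ v hv (congrArg Subtype.val this))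

end FJ63
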