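import Pool.Agent.Lib.MP_63c928_gt.LN.Act

/-! The Bass-Serre tree of an HNN extension. -/

namespace FJ63

open SimpleGraph HNNExtension

variable {B : Type} [Group B] {A A' : Subgroup B} (φ : A ≃* A')

/-- The exponent sum of the stable letter. -/
noncomputable def hgt : HNNExtension B A A' φ →* Multiplicative ℤ :=
  HNNExtension.lift 1 (Multiplicative.ofAdd 1) (by simp)

@[simp] theorem hgt_of (b : B) : hgt φ (of b) = 1 := by simp [hgt]

@[simp] theorem hgt_t : hgt φ t = Multiplicative.ofAdd 1 := by simp [hgt]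

/-- Vertices of the Bass-Serre tree. -/
abbrev BSV : Type :=
  HNNExtension B A A' φ ⧸ (of.range : Subgroup (HNNExtension B A A' φ))

/-- Height of a vertex. -/
noncomputable def bsh (v : BSV φ) : ℤ :=
  Quotient.liftOn' v (fun x => (hgt φ x).toAdd) (by
    intro x y hxy
    rw [QuotientGroup.leftRel_apply] at hxy
    obtain ⟨b, hb⟩ := hxy
    have : y = x * of b := by rw [hb]; group
    simp [this])

theorem bsh_mk (x : HNNExtension B A A' φ) : bsh φ (x : BSV φ) = (hgt φ x).toAdd := rfl

/-- The Bass-Serre graph. -/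
def bsT : SimpleGraph (BSV φ) where
  Adj a b := ∃ x : HNNExtension B A A' φ,
    (a = (x : BSV φ) ∧ b = ((x * t : HNNExtension B A A' φ) : BSV φ)) ∨
    (b = (x : BSV φ) ∧ a = ((x * t : HNNExtension B A A' φ) : BSV φ))
  symm := ⟨fun _ _ ⟨x, h⟩ => ⟨x, h.symm⟩⟩
  loopless := ⟨by
    rintro _ ⟨x, ⟨rfl, h⟩ | ⟨rfl, h⟩⟩ <;>
    · have := congrArg (bsh φ) h
      simp [bsh_mk] at this⟩

theorem mk_mul_of (x : HNNExtension B A A' φ) (b : B) :
    ((x * of b : HNNExtension B A A' φ) : BSV φ) = (x : BSV φ) := by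
  rw [QuotientGroup.eq]
  exact ⟨b⁻¹, by simp⟩

theorem bs_adj_iff (x : HNNExtension B A A' φ) (w : BSV φ) (h : (bsT φ).Adj (x : BSV φ) w) :
    ∃ (b : B) (u : ℤˣ), w = ((x * of b * t ^ (u : ℤ) : HNNExtension B A A' φ) : BSV φ) := by
  obtain ⟨y, ⟨h1, rfl⟩ | ⟨rfl, h1⟩⟩ := h
  · rw [QuotientGroup.eq] at h1
    obtain ⟨b, hb⟩ := h1
    refine ⟨b, 1, ?_⟩
    rw [hb]; simp
  · rw [QuotientGroup.eq] at h1
    obtain ⟨b, hb⟩ := h1
    refine ⟨b, -1, ?_⟩
    rw [hb]; simp

theorem bs_walk {a v : BSV φ} (p : (bsT φ).Walk a v) (hp : p.IsTrail) :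
    ∀ x : HNNExtension B A A' φ, a = (x : BSV φ) →
      ∃ w : NormalWord.ReducedWord B A A', w.toList.length = p.length ∧
        v = ((x * w.prod φ : HNNExtension B A A' φ) : BSV φ) ∧
        ∀ u ∈ w.toList.head?, p.getVert 1 =
          ((x * of w.head * t ^ (u.1 : ℤ) : HNNExtension B A A' φ) : BSV φ) := by
  induction p with
  | nil =>
    rintro x rfl
    refine ⟨NormalWord.ReducedWord.empty B A A', rfl, ?_, by simp⟩
    simp [NormalWord.ReducedWord.prod]
  | @cons a c v hac p ih =>
    rintro x rfl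
    obtain ⟨b, u, rfl⟩ := bs_adj_iff φ x c hac
    obtain ⟨w, h1, h2, h3⟩ := ih hp.of_cons _ rfl
    refine ⟨⟨b, (u, w.head) :: w.toList, ?_⟩, by simp [h1], ?_, ?_⟩
    · rw [List.isChain_cons]
      refine ⟨?_, w.chain⟩
      intro u' hu' hmem
      by_contra hne
      have hu : u'.1 = -u := by
        rcases Int.units_eq_one_or u with rfl | rfl <;>
        rcases Int.units_eq_one_or u'.1 with h | h <;> simp_all
      have e := h3 u' hu'
      have e2 : p.getVert 1 = (x : BSV φ) := by
        rw [e, hu]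
        rcases Int.units_eq_one_or u with rfl | rfl
        · have := t_mul_of (φ := φ) ⟨w.head, hmem⟩
          simp only [Units.val_one, zpow_one, Units.val_neg, zpow_neg] at this ⊢
          rw [mul_assoc (x * of b) t, this, ← mul_assoc, mul_inv_cancel_right, mk_mul_of, mk_mul_of]
        · have := inv_t_mul_of (φ := φ) ⟨w.head, hmem⟩
          simp only [Units.val_one, zpow_one, Units.val_neg, zpow_neg, neg_neg] at this ⊢
          rw [mul_assoc (x * of b) t⁻¹, this, ← mul_assoc, inv_mul_cancel_right, mk_mul_of,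
            mk_mul_of]
      cases p with
      | nil =>
        have : w.toList = [] := List.length_eq_zero_iff.1 h1
        simp [this] at hu'
      | cons h' p' =>
        rw [Walk.isTrail_cons] at hp
        apply hp.2
        simp only [Walk.getVert_cons_succ, Walk.getVert_zero] at e2
        simp only [Walk.edges_cons, List.mem_cons]
        left
        rw [e2, Sym2.eq_swap]
    · refine h2.trans ?_
      simp [NormalWord.ReducedWord.prod, mul_assoc]
    · intro u' hu'
      simp only [List.head?_cons, Option.mem_def, Option.some.injEq] at hu'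
      subst hu'
      simp

theorem bs_act (g x : HNNExtension B A A' φ) :
    MulAction.toPermHom (HNNExtension B A A' φ) (BSV φ) g (x : BSV φ) =
      ((g * x : HNNExtension B A A' φ) : BSV φ) := rfl

theorem bs_adj (g : HNNExtension B A A' φ) (u v : BSV φ) (h : (bsT φ).Adj u v) :
    (bsT φ).Adj (MulAction.toPermHom (HNNExtension B A A' φ) (BSV φ) g u)
      (MulAction.toPermHom (HNNExtension B A A' φ) (BSV φ) g v) := by
  obtain ⟨x, ⟨rfl, rfl⟩ | ⟨rfl, rfl⟩⟩ := h
  · exact ⟨g * x, Or.inl ⟨rfl, by rw [bs_act, mul_assoc]⟩⟩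
  · exact ⟨g * x, Or.inr ⟨rfl, by rw [bs_act, mul_assoc]⟩⟩

theorem bs_isTree : (bsT φ).IsTree := by
  refine ⟨?_, ?_⟩
  · have key : ∀ g x : HNNExtension B A A' φ,
        (bsT φ).Reachable (x : BSV φ) ((x * g : HNNExtension B A A' φ) : BSV φ) := by
      intro g
      induction g using HNNExtension.induction_on with
      | of b => intro x; rw [mk_mul_of]
      | t => intro x; exact Adj.reachable ⟨x, Or.inl ⟨rfl, rfl⟩⟩
      | mul g g' ih ih' => intro x; rw [← mul_assoc]; exact (ih x).trans (ih' _)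
      | inv g ih => intro x; simpa using (ih (x * g⁻¹)).symm
    refine ⟨?_⟩
    intro a b
    induction a using QuotientGroup.induction_on with | _ x =>
    induction b using QuotientGroup.induction_on with | _ y =>
    simpa using key (x⁻¹ * y) x
  · intro a p hp
    induction a using QuotientGroup.induction_on with | _ x =>
    obtain ⟨w, h1, h2, -⟩ := bs_walk φ p hp.isTrail x rfl
    rw [QuotientGroup.eq, inv_mul_cancel_left] at h2
    have := HNNExtension.ReducedWord.toList_eq_nil_of_mem_of_range φ w h2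
    rw [this] at h1
    have := hp.three_le_length
    simp at h1
    omega

theorem exists_bs_tree : ∃ (V : Type) (T : SimpleGraph V)
    (ρ : HNNExtension B A A' φ →* Equiv.Perm V) (h : V → ℤ), T.IsTree ∧
    (∀ g u v, T.Adj u v → T.Adj (ρ g u) (ρ g v)) ∧
    (∀ g u v, T.Adj u v → ρ g u = v → ρ g v ≠ u) ∧
    (∀ g v, h (ρ g v) = h v + (hgt φ g).toAdd) ∧
    (∀ u w, T.Adj u w → h w = h u + 1 ∨ h u = h w + 1) ∧
    ∀ v, ∃ x, h v = (hgt φ x).toAdd ∧ ∀ g, ρ g v = v → ∃ b, g = x * of b * x⁻¹ := by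
  have h1 : ∀ g v, bsh φ (MulAction.toPermHom (HNNExtension B A A' φ) (BSV φ) g v) =
      bsh φ v + (hgt φ g).toAdd := by
    intro g v
    induction v using QuotientGroup.induction_on with | _ x =>
    rw [bs_act, bsh_mk, bsh_mk, map_mul, toAdd_mul, add_comm]
  have h2 : ∀ u w, (bsT φ).Adj u w → bsh φ w = bsh φ u + 1 ∨ bsh φ u = bsh φ w + 1 := by
    rintro _ _ ⟨x, ⟨rfl, rfl⟩ | ⟨rfl, rfl⟩⟩
    · left; simp [bsh_mk]
    · right; simp [bsh_mk]
  refine ⟨BSV φ, bsT φ, MulAction.toPermHom _ _, bsh φ, bs_isTree φ, bs_adj φ, ?_, h1, h2, ?_⟩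
  · intro g u v huv e1 e2
    have a1 := h1 g u
    have a2 := h1 g v
    rw [e1] at a1
    rw [e2] at a2
    rcases h2 u v huv with h | h <;> omega
  · intro v
    induction v using QuotientGroup.induction_on with | _ x =>
    refine ⟨x, rfl, ?_⟩
    intro g hg
    rw [bs_act, eq_comm, QuotientGroup.eq] at hg
    obtain ⟨b, hb⟩ := hg
    exact ⟨b, by rw [hb]; group⟩

end FJ63
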