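import Pool.Agent.Lib.MP_63c928_gt.LN.Defs

/-! Elementary closure properties of the class `Generated Q`. -/

namespace FJ63

variable {Q : Type} [Group Q]

theorem Generated.of_equiv {G H : Type} [Group G] [Group H] (e : G ≃* H) (h : Generated Q H) :
    Generated Q G :=
  Generated.subgroup G H e.toMonoidHom e.injective h

theorem Generated.sub {G : Type} [Group G] (h : Generated Q G) (S : Subgroup G) :
    Generated Q S :=
  Generated.subgroup S G S.subtype S.subtype_injective h

theorem Generated.of_le {G : Type} [Group G] {S S' : Subgroup G} (hle : S ≤ S')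
    (h : Generated Q S') : Generated Q S :=
  Generated.subgroup S S' (Subgroup.inclusion hle) (Subgroup.inclusion_injective hle) h

theorem Generated.of_top {G : Type} [Group G] (h : Generated Q (⊤ : Subgroup G)) :
    Generated Q G :=
  Generated.of_equiv Subgroup.topEquiv.symm h

theorem Generated.of_comm {G : Type} [Group G] (h : ∀ a b : G, a * b = b * a) :
    Generated Q G :=
  Generated.solvable G (Group.isSolvable_of_comm h)

theorem Generated.of_finite (G : Type) [Group G] [Finite G] : Generated Q G := by
  refine Generated.finiteIndex G ⊥ inferInstance (Generated.of_comm ?_)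
  intro a b
  exact Subsingleton.elim _ _

theorem Generated.of_nilpotent (G : Type) [Group G] [Group.IsNilpotent G] : Generated Q G :=
  Generated.solvable G inferInstance

/-- A subgroup whose image under an injective homomorphism lies in a good subgroup is good. -/
theorem Generated.of_map_le {G H : Type} [Group G] [Group H] (φ : G →* H) (S : Subgroup G)
    (S' : Subgroup H) (hφ : ∀ x ∈ S, φ x = 1 → x = 1) (hle : ∀ x ∈ S, φ x ∈ S')
    (h : Generated Q S') : Generated Q S := by
  refine Generated.subgroup S S' ((φ.comp S.subtype).codRestrict S' (fun x => hle x x.2)) ?_ h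
  rw [injective_iff_map_eq_one]
  intro x hx
  have : φ x = 1 := congrArg Subtype.val hx
  exact Subtype.ext (hφ x x.2 this)

/-- Extension along an arbitrary homomorphism. -/
theorem Generated.ext' {G P : Type} [Group G] [Group P] (p : G →* P) (hP : Generated Q P)
    (h : ∀ g : G, Generated Q ((Subgroup.zpowers (p g)).comap p)) : Generated Q G := by
  refine Generated.extension G p.range p.rangeRestrict p.rangeRestrict_surjective (hP.sub _) ?_
  rintro ⟨x, g, rfl⟩
  refine Generated.of_le ?_ (h g)
  intro y hy
  rw [Subgroup.mem_comap, Subgroup.mem_zpowers_iff] at hy ⊢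
  obtain ⟨k, hk⟩ := hy
  exact ⟨k, by simpa using congrArg Subtype.val hk⟩

/-- A group all of whose finite subsets lie in good subgroups is good. -/
theorem Generated.of_local {G : Type} [Group G]
    (h : ∀ s : Finset G, ∃ S : Subgroup G, (s : Set G) ⊆ S ∧ Generated Q S) :
    Generated Q G := by
  classical
  refine Generated.colimit G (Finset G) (fun s => Subgroup.closure (s : Set G))
    (fun s s' hs => Subgroup.inclusion (Subgroup.closure_mono (by exact_mod_cast hs)))
    (fun s => (Subgroup.closure (s : Set G)).subtype) ?_ ?_ ?_ ?_ ?_ ?_ ?_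
  · intro i j
    exact ⟨i ∪ j, Finset.subset_union_left, Finset.subset_union_right⟩
  · intro i x; rfl
  · intro i j k hij hjk x; rfl
  · intro i j hij x; rfl
  · intro g
    exact ⟨{g}, ⟨g, Subgroup.subset_closure (by simp)⟩, rfl⟩
  · intro i x hx
    exact ⟨i, le_rfl, Subtype.ext hx⟩
  · intro s
    obtain ⟨S, hS, hG⟩ := h s
    exact Generated.of_le ((Subgroup.closure_le S).2 hS) hG

/-- The same for a subgroup of an ambient group. -/
theorem Generated.of_local' {G : Type} [Group G] (L : Subgroup G)
    (h : ∀ s : Finset G, (s : Set G) ⊆ L → ∃ S : Subgroup G, (s : Set G) ⊆ S ∧ Generated Q S) :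
    Generated Q L := by
  classical
  refine Generated.of_local fun s => ?_
  obtain ⟨S, hS, hG⟩ := h (s.image Subtype.val) (by
    intro x hx
    simp only [Finset.coe_image, Set.mem_image] at hx
    obtain ⟨y, -, rfl⟩ := hx
    exact y.2)
  refine ⟨S.comap L.subtype, ?_, ?_⟩
  · intro x hx
    exact hS (by simp only [Finset.coe_image]; exact ⟨x, hx, rfl⟩)
  · refine Generated.of_map_le L.subtype _ S ?_ (fun x hx => hx) hG
    intro x _ hx
    exact Subtype.ext hx

/-- Local nilpotency of a subgroup, read inside the ambient group. -/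
def LNs {G : Type} [Group G] (N : Subgroup G) : Prop :=
  ∀ S : Subgroup G, S ≤ N → S.FG → Group.IsNilpotent S

/-- Local finiteness of a subgroup, read inside the ambient group. -/
def LFs {G : Type} [Group G] (N : Subgroup G) : Prop :=
  ∀ S : Subgroup G, S ≤ N → S.FG → Finite S

theorem fg_subgroupOf {G : Type} [Group G] {N S : Subgroup G} (hS : S ≤ N) (hfg : S.FG) :
    (S.subgroupOf N).FG := by
  rw [← Group.fg_iff_subgroup_fg] at hfg ⊢
  exact Group.fg_of_surjective (f := (Subgroup.subgroupOfEquivOfLe hS).symm.toMonoidHom)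
    (Subgroup.subgroupOfEquivOfLe hS).symm.surjective

theorem LNs.of_ln {G : Type} [Group G] {N : Subgroup G} (h : LocallyNilpotent N) : LNs N := by
  intro S hS hfg
  have := h (S.subgroupOf N) (fg_subgroupOf hS hfg)
  exact Group.nilpotent_of_mulEquiv (Subgroup.subgroupOfEquivOfLe hS)

theorem LFs.of_lf {G : Type} [Group G] {N : Subgroup G} (h : LocallyFinite N) : LFs N := by
  intro S hS hfg
  have := h (S.subgroupOf N) (fg_subgroupOf hS hfg)
  exact Finite.of_equiv _ (Subgroup.subgroupOfEquivOfLe hS).toEquiv

theorem fg_closure_finset {G : Type} [Group G] (s : Finset G) :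
    (Subgroup.closure (s : Set G)).FG :=
  ⟨s, rfl⟩

theorem LNs.generated {G : Type} [Group G] {N : Subgroup G} (h : LNs N) : Generated Q N := by
  refine Generated.of_local' N fun s hs => ⟨Subgroup.closure s, Subgroup.subset_closure, ?_⟩
  have := h _ ((Subgroup.closure_le N).2 hs) (fg_closure_finset s)
  exact Generated.of_nilpotent _

theorem LFs.generated {G : Type} [Group G] {N : Subgroup G} (h : LFs N) : Generated Q N := by
  refine Generated.of_local' N fun s hs => ⟨Subgroup.closure s, Subgroup.subset_closure, ?_⟩
  have := h _ ((Subgroup.closure_le N).2 hs) (fg_closure_finset s)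
  exact Generated.of_finite _

theorem LNs.mono {G : Type} [Group G] {N N' : Subgroup G} (h : LNs N) (hle : N' ≤ N) : LNs N' :=
  fun S hS hfg => h S (hS.trans hle) hfg

/-- Finitely generated subgroups of an image lift to finitely generated subgroups. -/
theorem exists_fg_lift {G G' : Type} [Group G] [Group G'] (σ : G →* G') (N : Subgroup G)
    (S : Subgroup G') (hS : S ≤ N.map σ) (hfg : S.FG) :
    ∃ S₀ : Subgroup G, S₀ ≤ N ∧ S₀.FG ∧ S₀.map σ = S := by
  classical
  obtain ⟨s, rfl⟩ := hfg
  have : ∀ x : s, ∃ y ∈ N, σ y = x := fun x => hS (Subgroup.subset_closure x.2)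
  choose f hfN hf using this
  refine ⟨Subgroup.closure (Finset.univ.image f : Finset G), ?_, fg_closure_finset _, ?_⟩
  · rw [Subgroup.closure_le]
    intro y hy
    simp only [Finset.coe_image, Finset.coe_univ, Set.image_univ, Set.mem_range] at hy
    obtain ⟨x, rfl⟩ := hy
    exact hfN x
  · rw [MonoidHom.map_closure]
    congr 1
    ext y
    simp only [Finset.coe_image, Finset.coe_univ, Set.image_univ, Set.mem_image, Set.mem_range]
    constructor
    · rintro ⟨_, ⟨x, rfl⟩, rfl⟩
      rw [hf]; exact x.2
    · intro hy
      exact ⟨f ⟨y, hy⟩, ⟨_, rfl⟩, hf _⟩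

theorem LNs.map {G G' : Type} [Group G] [Group G'] {N : Subgroup G} (h : LNs N) (σ : G →* G') :
    LNs (N.map σ) := by
  intro S hS hfg
  obtain ⟨S₀, h1, h2, rfl⟩ := exists_fg_lift σ N S hS hfg
  have := h S₀ h1 h2
  exact Group.nilpotent_of_surjective (σ.subgroupMap S₀) (σ.subgroupMap_surjective S₀)

end FJ63
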