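import Pool.Agent.Lib.MP_63c928_gt.LN.Rank

/-! A minimal isolated normal subgroup is abelian or separated. -/

namespace FJ63

open scoped commutatorElement

variable {G : Type} [Group G]

theorem chain_sep {B H : Subgroup G} [hH : H.Normal] {r : ℕ} (hr : Rk B r) (e : G → ℤ)
    (he : ∀ u, e u⁻¹ = -e u) (X : ℤ → Subgroup G) (hmono : Monotone X)
    (hconj : ∀ j u, ∀ x ∈ X j, u * x * u⁻¹ ∈ X (j + e u)) (hpure : ∀ j, PureIn (X j) B)
    (hinf : ∀ x, (∀ j, x ∈ X j) → x = 1) (hsup : ∀ x ∈ H, ∃ j, x ∈ X j) :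
    ∃ M : ℕ, ∀ b ∈ B, ∀ u : G, b ≠ 1 → b ∈ H → u * b * u⁻¹ ∈ B → |e u| ≤ M := by
  obtain ⟨ρ, h1, h2⟩ := hr
  have hmin : ∀ f : ℤ → ℕ, ∃ j, ∀ k, f j ≤ f k := fun f =>
    ⟨Function.argmin f, fun k => Function.argmin_le f k⟩
  obtain ⟨j₀, hj₀⟩ := hmin (fun j => ρ (B ⊓ X j))
  obtain ⟨j₁, hj₁⟩ := hmin (fun j => r - ρ (B ⊓ X j))
  have hlt : ∀ i j, i ≤ j → ρ (B ⊓ X j) ≤ ρ (B ⊓ X i) → B ⊓ X i = B ⊓ X j := by
    intro i j hij hρ
    by_contra hne
    have := h2 _ _ (inf_le_inf_left B (hmono hij)) inf_le_left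
      (fun x hx n hn h => Subgroup.mem_inf.2 ⟨hx, hpure i x hx n hn h.2⟩) hne
    omega
  have a0 : ∀ b ∈ B, b ∈ X j₀ → b = 1 := by
    intro b hb hb'
    refine hinf b fun j => ?_
    rcases le_total j j₀ with h | h
    · have := hlt j j₀ h (hj₀ j)
      have h' : b ∈ B ⊓ X j₀ := Subgroup.mem_inf.2 ⟨hb, hb'⟩
      rw [← this] at h'
      exact h'.2
    · exact hmono h hb'
  have a1 : ∀ b ∈ B, b ∈ H → b ∈ X j₁ := by
    intro b hb hb'
    obtain ⟨j, hj⟩ := hsup b hb'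
    rcases le_total j j₁ with h | h
    · exact hmono h hj
    · have b1 := hj₁ j
      have b2 := h1 (B ⊓ X j)
      have b3 := h1 (B ⊓ X j₁)
      have := hlt j₁ j h (by omega)
      have h' : b ∈ B ⊓ X j := Subgroup.mem_inf.2 ⟨hb, hj⟩
      rw [← this] at h'
      exact h'.2
  have a2 : ∀ b ∈ B, ∀ u : G, b ≠ 1 → b ∈ H → u * b * u⁻¹ ∈ B → j₀ < j₁ + e u := by
    intro b hb u hb1 hbH hub
    by_contra hle
    have := a0 _ hub (hmono (not_lt.1 hle) (hconj j₁ u b (a1 b hb hbH)))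
    apply hb1
    simpa using this
  refine ⟨(j₁ - j₀).toNat, ?_⟩
  intro b hb u hb1 hbH hub
  have c1 := a2 b hb u hb1 hbH hub
  have c2 := a2 _ hub u⁻¹ (by simpa using hb1) (hH.conj_mem b hbH u) (by
    have : u⁻¹ * (u * b * u⁻¹) * u⁻¹⁻¹ = b := by group
    rwa [this])
  rw [he] at c2
  rw [abs_le]
  omega

theorem nc_conj {N : Subgroup G} {F : Set G} : ∀ u ∈ N, ∀ k ∈ nc N F, u * k * u⁻¹ ∈ nc N F := by
  intro u hu k hk
  have : nc N F ≤ (nc N F).comap (MulAut.conj u).toMonoidHom := by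
    rw [nc, Subgroup.closure_le]
    rintro _ ⟨x, hx, f, hf, rfl⟩
    refine Subgroup.subset_closure ⟨u * x, mul_mem hu hx, f, hf, ?_⟩
    simp [mul_assoc]
  exact this hk

theorem chief (η : G →* Multiplicative ℤ) (τ : G) (hη : η τ = Multiplicative.ofAdd 1)
    (hN : LNs η.ker) (htf : PureIn ⊥ η.ker) (H : Subgroup G) [hH : H.Normal] (hHN : H ≤ η.ker)
    (hHp : PureIn H η.ker) (hH0 : H ≠ ⊥)
    (hmin : ∀ H' : Subgroup G, H'.Normal → H' ≤ H → PureIn H' η.ker → H' = ⊥ ∨ H' = H)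
    {B : Subgroup G} (hB : B ≤ η.ker) {r : ℕ} (hr : Rk B r) :
    (∀ a ∈ H, ∀ b ∈ H, a * b = b * a) ∨
      ∃ M : ℕ, ∀ b ∈ B, ∀ u : G, b ≠ 1 → b ∈ H → u * b * u⁻¹ ∈ B → (η u).toAdd ≤ M := by
  set N := η.ker with hNdef
  have hNn : N.Normal := MonoidHom.normal_ker η
  obtain ⟨a, haH, ha1⟩ : ∃ a ∈ H, a ≠ 1 := by
    by_contra h
    push Not at h
    exact hH0 ((Subgroup.eq_bot_iff_forall H).2 h)
  let c : ℤ → G := fun k => τ ^ k * a * (τ ^ k)⁻¹
  let D : Set ℤ → Subgroup G := fun I => rt N (nc N (c '' I))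
  have hD : ∀ I x, x ∈ D I ↔ x ∈ N ∧ ∃ n : ℕ, n ≠ 0 ∧ x ^ n ∈ nc N (c '' I) :=
    fun I x => mem_rt hN nc_conj
  have D3 : ∀ I, PureIn (D I) N := fun I => rt_pure hN nc_conj
  have D1 : ∀ (I J : Set ℤ) (u : G), (∀ k ∈ I, k + (η u).toAdd ∈ J) →
      ∀ x ∈ D I, u * x * u⁻¹ ∈ D J := by
    intro I J u hIJ x hx
    obtain ⟨h1, n, hn, h2⟩ := (hD I x).1 hx
    refine (hD J _).2 ⟨hNn.conj_mem x h1 u, n, hn, ?_⟩
    rw [conj_pow]
    have : nc N (c '' I) ≤ (nc N (c '' J)).comap (MulAut.conj u).toMonoidHom := by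
      rw [nc, Subgroup.closure_le]
      rintro _ ⟨y, hy, _, ⟨k, hk, rfl⟩, rfl⟩
      refine Subgroup.subset_closure ⟨u * y * (τ ^ (η u).toAdd)⁻¹, ?_, _,
        ⟨k + (η u).toAdd, hIJ k hk, rfl⟩, ?_⟩
      · have hy' : η y = 1 := hy
        rw [hNdef, MonoidHom.mem_ker, map_mul, map_mul, hy', map_inv, map_zpow, hη, ← ofAdd_zsmul]
        simp
      · simp only [c, MulEquiv.toMonoidHom_eq_coe, MonoidHom.coe_coe, MulAut.conj_apply]
        group
    exact this h2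
  have D2 : ∀ I J : Set ℤ, I ⊆ J → D I ≤ D J := by
    intro I J h x hx
    simpa using D1 I J 1 (fun k hk => by simpa using h hk) x hx
  have D4 : ∀ I, D I ≤ H := by
    intro I x hx
    obtain ⟨h1, n, hn, h2⟩ := (hD I x).1 hx
    refine hHp x h1 n hn ?_
    have : nc N (c '' I) ≤ H := by
      rw [nc, Subgroup.closure_le]
      rintro _ ⟨y, -, _, ⟨k, -, rfl⟩, rfl⟩
      exact hH.conj_mem _ (hH.conj_mem a haH _) y
    exact this h2
  have hcN : ∀ k, c k ∈ N := fun k => hNn.conj_mem a (hHN haH) _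
  have D5 : ∀ (I : Set ℤ), ∀ k ∈ I, c k ∈ D I := by
    intro I k hk
    refine (hD I _).2 ⟨hcN k, 1, one_ne_zero, ?_⟩
    exact Subgroup.subset_closure ⟨1, one_mem _, _, ⟨k, hk, rfl⟩, by simp⟩
  have D6 : ∀ (I : Set ℤ), ∀ x ∈ D I, ∃ p : ℕ, x ∈ D (I ∩ Set.Icc (-(p : ℤ)) p) := by
    intro I x hx
    obtain ⟨h1, n, hn, h2⟩ := (hD I x).1 hx
    have : ∀ y ∈ nc N (c '' I), ∃ p : ℕ, y ∈ nc N (c '' (I ∩ Set.Icc (-(p : ℤ)) p)) := by
      have hm : ∀ p q : ℕ, p ≤ q → nc N (c '' (I ∩ Set.Icc (-(p : ℤ)) p)) ≤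
          nc N (c '' (I ∩ Set.Icc (-(q : ℤ)) q)) := fun p q h =>
        nc_mono le_rfl (Set.image_mono (Set.inter_subset_inter_right _
          (Set.Icc_subset_Icc (by omega) (by omega))))
      intro y hy
      induction hy using Subgroup.closure_induction with
      | mem y hy =>
        obtain ⟨z, hz, _, ⟨k, hk, rfl⟩, rfl⟩ := hy
        exact ⟨k.natAbs, Subgroup.subset_closure
          ⟨z, hz, _, ⟨k, ⟨hk, by constructor <;> omega⟩, rfl⟩, rfl⟩⟩
      | one => exact ⟨0, one_mem _⟩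
      | mul y z _ _ ihy ihz =>
        obtain ⟨p, hp⟩ := ihy
        obtain ⟨q, hq⟩ := ihz
        exact ⟨max p q, mul_mem (hm _ _ (le_max_left _ _) hp) (hm _ _ (le_max_right _ _) hq)⟩
      | inv y _ ih =>
        obtain ⟨p, hp⟩ := ih
        exact ⟨p, inv_mem hp⟩
    obtain ⟨p, hp⟩ := this _ h2
    exact ⟨p, (hD _ x).2 ⟨h1, n, hn, hp⟩⟩
  have D7 : ∀ I J : Set ℤ, (∀ k ∈ I, c k ∈ D J) → D I ≤ D J := by
    intro I J h x hx
    obtain ⟨h1, n, hn, h2⟩ := (hD I x).1 hx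
    refine D3 J x h1 n hn ?_
    have : nc N (c '' I) ≤ D J := by
      rw [nc, Subgroup.closure_le]
      rintro _ ⟨y, hy, _, ⟨k, hk, rfl⟩, rfl⟩
      have hy' : η y = 1 := hy
      exact D1 J J y (by simp [hy']) _ (h k hk)
    exact this h2
  have hc0 : c 0 = a := by simp [c]
  have D8 : D Set.univ = H := by
    refine (hmin _ ⟨fun x hx u => D1 _ _ u (by simp) x hx⟩ (D4 _) (D3 _)).resolve_left ?_
    intro e
    have := D5 Set.univ 0 trivial
    rw [e, hc0] at this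
    exact ha1 this
  have hcase : ∀ ε : ℤ, ε = 1 ∨ ε = -1 →
      (∃ M : ℕ, ∀ b ∈ B, ∀ u : G, b ≠ 1 → b ∈ H → u * b * u⁻¹ ∈ B → (η u).toAdd ≤ M) ∨
      a ∈ D {k | ε * k ≤ -1} := by
    intro ε hε
    have hconj : ∀ j u, ∀ x ∈ D {k | ε * k ≤ j},
        u * x * u⁻¹ ∈ D {k | ε * k ≤ j + ε * (η u).toAdd} := by
      intro j u
      refine D1 _ _ u ?_
      intro k hk
      simp only [Set.mem_ofPred_eq] at hk ⊢
      rw [mul_add]
      omega
    rcases hmin (⨅ j, D {k | ε * k ≤ j}) ⟨fun x hx u => by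
        rw [Subgroup.mem_iInf] at hx ⊢
        intro j
        simpa using hconj (j - ε * (η u).toAdd) u x (hx _)⟩
      ((iInf_le _ 0).trans (D4 _)) (fun x hx n hn h => by
        rw [Subgroup.mem_iInf] at h ⊢
        exact fun j => D3 _ x hx n hn (h j)) with e | e
    · left
      obtain ⟨M, hM⟩ := chain_sep (H := H) hr (fun u => ε * (η u).toAdd) (by simp)
        (fun j => D {k | ε * k ≤ j}) (fun i j hij => D2 _ _ (fun k hk => le_trans hk hij)) hconj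
        (fun j x hx => D3 _ x (hB hx)) (fun x hx => by
          have : x ∈ ⨅ j, D {k | ε * k ≤ j} := Subgroup.mem_iInf.2 hx
          rw [e] at this
          exact this) (fun x hx => by
          obtain ⟨p, hp⟩ := D6 Set.univ x (D8 ▸ hx)
          refine ⟨p, D2 _ _ ?_ hp⟩
          rintro k ⟨-, h1, h2⟩
          simp only [Set.mem_ofPred_eq]
          rcases hε with rfl | rfl <;> omega)
      refine ⟨M, fun b hb u h1 h2 h3 => ?_⟩
      have := abs_le.1 (hM b hb u h1 h2 h3)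
      rcases hε with rfl | rfl <;> omega
    · right
      have : a ∈ ⨅ j, D {k | ε * k ≤ j} := e.symm ▸ haH
      exact Subgroup.mem_iInf.1 this _
  rcases hcase 1 (Or.inl rfl) with h | h1
  · exact Or.inr h
  rcases hcase (-1) (Or.inr rfl) with h | h2
  · exact Or.inr h
  left
  obtain ⟨p, hp⟩ := D6 _ a h1
  obtain ⟨q, hq⟩ := D6 _ a h2
  have hητ : ∀ k : ℤ, (η (τ ^ k)).toAdd = k := by
    intro k
    rw [map_zpow, hη, toAdd_zpow]
    simp
  set P : ℤ := p + q with hP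
  have hall : ∀ (n : ℕ) (k : ℤ), |k| ≤ P + n → c k ∈ D (Set.Icc (-P) P) := by
    intro n
    induction n with
    | zero => intro k hk; exact D5 _ k (abs_le.1 (by simpa using hk))
    | succ n ih =>
      intro k hk
      rcases le_or_gt |k| (P + n) with h | h
      · exact ih k h
      rcases le_or_gt 0 k with h0 | h0
      · rw [abs_of_nonneg h0] at hk h
        refine D7 (Set.Icc (k - p) (k - 1)) _ (fun i hi => ih i ?_)
          (D1 _ _ (τ ^ k) ?_ a hp)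
        · obtain ⟨i1, i2⟩ := hi
          push_cast at hk
          rw [abs_le]; omega
        · rintro i ⟨i1, i2, i3⟩
          simp only [Set.mem_ofPred_eq] at i1
          rw [hητ]
          constructor <;> omega
      · rw [abs_of_neg h0] at hk h
        refine D7 (Set.Icc (k + 1) (k + q)) _ (fun i hi => ih i ?_)
          (D1 _ _ (τ ^ k) ?_ a hq)
        · obtain ⟨i1, i2⟩ := hi
          push_cast at hk
          rw [abs_le]; omega
        · rintro i ⟨i1, i2, i3⟩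
          simp only [Set.mem_ofPred_eq] at i1
          rw [hητ]
          constructor <;> omega
  have hHle : H ≤ D (Set.Icc (-P) P) := by
    rw [← D8]
    refine D7 _ _ fun k _ => hall k.natAbs k ?_
    rw [Int.abs_eq_natAbs]
    omega
  have hcn : (⁅H, N⁆ : Subgroup G).Normal := Subgroup.commutator_normal H N
  have hR : ∀ x, x ∈ rt N ⁅H, N⁆ ↔ x ∈ N ∧ ∃ n : ℕ, n ≠ 0 ∧ x ^ n ∈ ⁅H, N⁆ :=
    fun x => mem_rt hN (fun u _ k hk => hcn.conj_mem k hk u)
  rcases hmin (rt N ⁅H, N⁆) ⟨fun x hx u => by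
      obtain ⟨x1, n, hn, x2⟩ := (hR x).1 hx
      exact (hR _).2 ⟨hNn.conj_mem x x1 u, n, hn, by rw [conj_pow]; exact hcn.conj_mem _ x2 u⟩⟩
    (fun x hx => by
      obtain ⟨x1, n, hn, x2⟩ := (hR x).1 hx
      exact hHp x x1 n hn (Subgroup.commutator_le_left H N x2))
    (rt_pure hN (fun u _ k hk => hcn.conj_mem k hk u)) with e | e
  · intro x hx y hy
    have h1 : ⁅x, y⁆ ∈ ⁅H, N⁆ := Subgroup.commutator_mem_commutator hx (hHN hy)
    have h2 : ⁅x, y⁆ ∈ rt N ⁅H, N⁆ :=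
      (hR _).2 ⟨Subgroup.commutator_le_right H N h1, 1, one_ne_zero, by simpa using h1⟩
    rw [e] at h2
    exact commutatorElement_eq_one_iff_mul_comm.1 h2
  · exfalso
    apply ha1
    refine nakayama_ln hN htf (c '' Set.Icc (-P) P) ((Set.finite_Icc _ _).image _) ?_ ?_ a
      ⟨0, ⟨by omega, by omega⟩, hc0⟩
    · rintro _ ⟨k, -, rfl⟩
      exact hcN k
    · rintro _ ⟨k, hk, rfl⟩
      have h1 : c k ∈ rt N ⁅H, N⁆ := e.symm ▸ D4 _ (D5 _ k hk)
      obtain ⟨-, n, hn, h2⟩ := (hR _).1 h1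
      refine ⟨n, hn, ?_⟩
      have : ⁅H, N⁆ ≤ cm N (c '' Set.Icc (-P) P) := by
        rw [Subgroup.commutator_le]
        intro x hx u hu
        exact Subgroup.subset_closure ⟨x, hHN hx, u, hu, ((hD _ x).1 (hHle hx)).2, rfl⟩
      exact this h2

end FJ63
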