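import Mathlib

/-! Definitions used in the statement about generalized radical groups. -/

namespace FJ63

/-- Every finitely generated subgroup is nilpotent. -/
def LocallyNilpotent (G : Type) [Group G] : Prop :=
  ∀ S : Subgroup G, S.FG → Group.IsNilpotent S

/-- Every finitely generated subgroup is finite. -/
def LocallyFinite (G : Type) [Group G] : Prop :=
  ∀ S : Subgroup G, S.FG → Finite S

/-- `N` has an ascending series of normal subgroups of `G` with locally nilpotent or locally
finite factors: above every normal subgroup `K` of `G` properly contained in `N` there is a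
normal subgroup `H ≤ N` of `G` with `H / K` nontrivial and locally nilpotent or locally finite. -/
def GeneralizedRadicalIn {G : Type} [Group G] (N : Subgroup G) : Prop :=
  ∀ (K : Subgroup G) [K.Normal], K < N → ∃ H : Subgroup G, H.Normal ∧ K < H ∧ H ≤ N ∧
    (LocallyNilpotent (H.map (QuotientGroup.mk' K)) ∨ LocallyFinite (H.map (QuotientGroup.mk' K)))

/-- Stabiliser of a point under an action given as a homomorphism to permutations. -/
def stab {G V : Type} [Group G] (ρ : G →* Equiv.Perm V) (v : V) : Subgroup G :=
  (MulAction.stabilizer (Equiv.Perm V) v).comap ρ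

/-- The smallest class of groups that contains `Q` and all solvable groups and is closed under
subgroups, finite-index overgroups, extensions (in the sense of preimages of cyclic subgroups),
directed colimits, and acylindrical actions without inversion on simplicial trees. -/
inductive Generated (Q : Type) [Group Q] : (G : Type) → [Group G] → Prop
  | base : Generated Q Q
  | solvable (G : Type) [Group G] : Group.IsSolvable G → Generated Q G
  | subgroup (G H : Type) [Group G] [Group H] (φ : G →* H) :
      Function.Injective φ → Generated Q H → Generated Q G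
  | finiteIndex (G : Type) [Group G] (K : Subgroup G) :
      K.FiniteIndex → Generated Q K → Generated Q G
  | extension (G P : Type) [Group G] [Group P] (p : G →* P) :
      Function.Surjective p → Generated Q P →
      (∀ x : P, Generated Q ((Subgroup.zpowers x).comap p)) → Generated Q G
  | colimit (G I : Type) [Group G] [Preorder I] [Nonempty I] (H : I → Type) [∀ i, Group (H i)]
      (f : ∀ i j : I, i ≤ j → H i →* H j) (ε : ∀ i, H i →* G) :
      (∀ i j : I, ∃ k, i ≤ k ∧ j ≤ k) →
      (∀ i x, f i i le_rfl x = x) →
      (∀ i j k (hij : i ≤ j) (hjk : j ≤ k) x, f j k hjk (f i j hij x) = f i k (hij.trans hjk) x) →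
      (∀ i j (hij : i ≤ j) x, ε j (f i j hij x) = ε i x) →
      (∀ g, ∃ i x, ε i x = g) →
      (∀ i x, ε i x = 1 → ∃ (j : I) (hij : i ≤ j), f i j hij x = 1) →
      (∀ i, Generated Q (H i)) → Generated Q G
  | tree (G V : Type) [Group G] (T : SimpleGraph V) (ρ : G →* Equiv.Perm V) (k c : ℕ) :
      T.IsTree → (∀ g u v, T.Adj u v → T.Adj (ρ g u) (ρ g v)) →
      (∀ g u v, T.Adj u v → ρ g u = v → ρ g v ≠ u) →
      (∀ u v, k ≤ T.dist u v →
        Finite (stab ρ u ⊓ stab ρ v : Subgroup G) ∧ Nat.card (stab ρ u ⊓ stab ρ v : Subgroup G) ≤ c) →
      (∀ v, Generated Q (stab ρ v)) → Generated Q G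

end FJ63
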