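import Pool.Agent.Lib.MP_63c928_gt.LN.BS

/-! The HNN extension attached to an element and a subgroup of a group. -/

namespace FJ63

open HNNExtension

variable {Q : Type} [Group Q] {G G' : Type} [Group G] [Group G']

/-- Elements of `B` that `τ` conjugates into `B`. -/
def dom (τ : G) (B : Subgroup G) : Subgroup B :=
  B.comap ((MulAut.conj τ).toMonoidHom.comp B.subtype)

theorem mem_dom {τ : G} {B : Subgroup G} {a : B} : a ∈ dom τ B ↔ τ * a * τ⁻¹ ∈ B := Iff.rfl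

/-- Conjugation by `τ`. -/
def cj (τ : G) (B : Subgroup G) : dom τ B ≃* dom τ⁻¹ B where
  toFun a := ⟨⟨τ * a * τ⁻¹, a.2⟩, by
    change τ⁻¹ * (τ * a * τ⁻¹) * τ⁻¹⁻¹ ∈ B
    have : τ⁻¹ * (τ * a * τ⁻¹) * τ⁻¹⁻¹ = (a : B) := by group
    rw [this]
    exact (a : B).2⟩
  invFun a := ⟨⟨τ⁻¹ * a * τ⁻¹⁻¹, a.2⟩, by
    change τ * (τ⁻¹ * a * τ⁻¹⁻¹) * τ⁻¹ ∈ B
    have : τ * (τ⁻¹ * a * τ⁻¹⁻¹) * τ⁻¹ = (a : B) := by group
    rw [this]
    exact (a : B).2⟩
  left_inv a := by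
    apply Subtype.ext; apply Subtype.ext
    simp only
    group
  right_inv a := by
    apply Subtype.ext; apply Subtype.ext
    simp only
    group
  map_mul' a b := by
    apply Subtype.ext; apply Subtype.ext
    simp only [Subgroup.coe_mul]
    group

theorem cj_coe (τ : G) (B : Subgroup G) (a : dom τ B) :
    ((cj τ B a : B) : G) = τ * a * τ⁻¹ := rfl

/-- The HNN extension of `B` along the partial automorphism given by conjugation by `τ`. -/
abbrev Gam (τ : G) (B : Subgroup G) : Type :=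
  HNNExtension B (dom τ B) (dom τ⁻¹ B) (cj τ B)

/-- The natural map to `G`. -/
noncomputable def proj (τ : G) (B : Subgroup G) : Gam τ B →* G :=
  HNNExtension.lift B.subtype τ (by
    intro a
    simp only [Subgroup.coe_subtype, cj_coe, inv_mul_cancel_right])

@[simp] theorem proj_of (τ : G) (B : Subgroup G) (b : B) : proj τ B (of b) = b :=
  lift_of _ _ _ _

@[simp] theorem proj_t (τ : G) (B : Subgroup G) : proj τ B t = τ :=
  lift_t _ _ _

theorem t_conj (τ : G) (B : Subgroup G) (b : G) (hb : b ∈ B) (hb' : τ * b * τ⁻¹ ∈ B) :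
    (t * of ⟨b, hb⟩ : Gam τ B) = of ⟨τ * b * τ⁻¹, hb'⟩ * t :=
  t_mul_of (φ := cj τ B) ⟨⟨b, hb⟩, hb'⟩

/-- Functoriality. -/
noncomputable def fmap (σ : G →* G') {τ : G} {τ' : G'} {B : Subgroup G} {B' : Subgroup G'}
    (hτ : σ τ = τ') (hB : ∀ b ∈ B, σ b ∈ B') : Gam τ B →* Gam τ' B' :=
  HNNExtension.lift (of.comp ((σ.comp B.subtype).codRestrict B' (fun b => hB b b.2))) t (by
    intro a
    have h1 : τ' * σ a * τ'⁻¹ = σ (τ * a * τ⁻¹) := by simp [hτ]
    have := t_conj τ' B' (σ a) (hB _ (a : B).2) (h1 ▸ hB _ a.2)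
    refine this.trans ?_
    exact congrArg (fun y : B' => (of y : Gam τ' B') * t) (Subtype.ext h1))

theorem fmap_of (σ : G →* G') {τ : G} {τ' : G'} {B : Subgroup G} {B' : Subgroup G'}
    (hτ : σ τ = τ') (hB : ∀ b ∈ B, σ b ∈ B') (b : B) :
    fmap σ hτ hB (of b) = of ⟨σ b, hB b b.2⟩ := by
  exact lift_of _ _ _ _

theorem fmap_t (σ : G →* G') {τ : G} {τ' : G'} {B : Subgroup G} {B' : Subgroup G'}
    (hτ : σ τ = τ') (hB : ∀ b ∈ B, σ b ∈ B') : fmap σ hτ hB t = t := by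
  exact lift_t _ _ _

theorem proj_fmap (σ : G →* G') {τ : G} {τ' : G'} {B : Subgroup G} {B' : Subgroup G'}
    (hτ : σ τ = τ') (hB : ∀ b ∈ B, σ b ∈ B') (x : Gam τ B) :
    proj τ' B' (fmap σ hτ hB x) = σ (proj τ B x) := by
  have : (proj τ' B').comp (fmap σ hτ hB) = σ.comp (proj τ B) := by
    refine hom_ext ?_ ?_
    · ext b; simp [fmap_of]
    · simp [fmap_t, hτ]
  exact DFunLike.congr_fun this x

theorem hgt_fmap (σ : G →* G') {τ : G} {τ' : G'} {B : Subgroup G} {B' : Subgroup G'}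
    (hτ : σ τ = τ') (hB : ∀ b ∈ B, σ b ∈ B') (x : Gam τ B) :
    hgt (cj τ' B') (fmap σ hτ hB x) = hgt (cj τ B) x := by
  have : (hgt (cj τ' B')).comp (fmap σ hτ hB) = hgt (cj τ B) := by
    refine hom_ext ?_ ?_
    · ext b; simp [fmap_of]
    · simp [fmap_t]
  exact DFunLike.congr_fun this x

theorem eta_proj (η : G →* Multiplicative ℤ) {τ : G} {B : Subgroup G}
    (hτ : η τ = Multiplicative.ofAdd 1) (hB : B ≤ η.ker) (x : Gam τ B) :
    η (proj τ B x) = hgt (cj τ B) x := by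
  have : η.comp (proj τ B) = hgt (cj τ B) := by
    refine hom_ext ?_ ?_
    · ext b
      have : η b = 1 := hB b.2
      simp [this]
    · simp [hτ]
  exact DFunLike.congr_fun this x

theorem gam_finite (τ : G) (B : Subgroup G) [Finite B] : Generated Q (Gam τ B) := by
  obtain ⟨V, T, ρ, h, hT, hadj, hinv, -, -, hst⟩ := exists_bs_tree (cj τ B)
  have key : ∀ (v : V) (S : Subgroup (Gam τ B)), S ≤ stab ρ v →
      Finite S ∧ Nat.card S ≤ Nat.card B := by
    intro v S hS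
    obtain ⟨x, -, hx⟩ := hst v
    have : ∀ g : S, ∃ b : B, (g : Gam τ B) = x * of b * x⁻¹ := fun g => hx g (hS g.2)
    choose f hf using this
    have hinj : Function.Injective f := by
      intro a b hab
      apply Subtype.ext
      rw [hf, hf, hab]
    exact ⟨Finite.of_injective f hinj, Nat.card_le_card_of_injective f hinj⟩
  refine Generated.tree _ V T ρ 0 (Nat.card B) hT hadj hinv
    (fun u v _ => key u _ inf_le_left) ?_
  intro v
  have := (key v _ le_rfl).1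
  exact Generated.of_finite _

theorem gam_inj (σ : G →* G') {τ : G} {τ' : G'} {B : Subgroup G} {B' : Subgroup G'}
    (hτ : σ τ = τ') (hB : ∀ b ∈ B, σ b ∈ B') (hσ : ∀ b ∈ B, σ b = 1 → b = 1)
    (h : Generated Q (Gam τ' B')) : Generated Q (Gam τ B) := by
  obtain ⟨V, T, ρ, h₀, hT, hadj, hinv, -, -, hst⟩ := exists_bs_tree (cj τ B)
  refine Generated.of_inj T ρ hT hadj hinv (fmap σ hτ hB) h ?_
  intro g v hv hg
  obtain ⟨x, -, hx⟩ := hst v
  obtain ⟨b, rfl⟩ := hx g hv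
  have h1 := proj_fmap σ hτ hB (x * of b * x⁻¹)
  rw [hg] at h1
  simp only [map_one, map_mul, proj_of, map_inv] at h1
  have h2 : σ b = 1 := by
    have : σ b = (σ (proj τ B x))⁻¹ * (σ (proj τ B x) * σ b * (σ (proj τ B x))⁻¹) *
      σ (proj τ B x) := by group
    rw [this, ← h1]; simp
  have : b = 1 := Subtype.ext (hσ b b.2 h2)
  simp [this]

theorem gam_proj (τ : G) (B : Subgroup G) (L : Subgroup (Gam τ B)) (S : Subgroup G)
    (hL : ∀ x ∈ L, proj τ B x ∈ S) (hS : Generated Q S) : Generated Q L := by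
  obtain ⟨V, T, ρ, h₀, hT, hadj, hinv, -, -, hst⟩ := exists_bs_tree (cj τ B)
  refine Generated.of_inj T (ρ.comp L.subtype) hT (fun g => hadj g) (fun g => hinv g)
    (((proj τ B).comp L.subtype).codRestrict S (fun x => hL x x.2)) hS ?_
  intro g v hv hg
  obtain ⟨x, -, hx⟩ := hst v
  obtain ⟨b, hb⟩ := hx g hv
  have h1 : proj τ B g = 1 := congrArg Subtype.val hg
  rw [hb] at h1
  simp only [map_mul, proj_of, map_inv, mul_inv_eq_one, mul_eq_left, OneMemClass.coe_eq_one] at h1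
  apply Subtype.ext
  simp [hb, h1]

theorem gam_ab (σ : G →* G') {τ : G} {τ' : G'} {B : Subgroup G} {B' : Subgroup G'}
    (hτ : σ τ = τ') (hB : ∀ b ∈ B, σ b ∈ B')
    (hσ : ∀ a b, σ a = 1 → σ b = 1 → a * b = b * a)
    (h : Generated Q (Gam τ' B')) : Generated Q (Gam τ B) := by
  refine Generated.ext' (fmap σ hτ hB) h fun g => ?_
  set S := (Subgroup.zpowers (σ (proj τ B g))).comap σ
  refine gam_proj τ B _ S ?_ ?_
  · rintro x ⟨k, hk⟩
    refine ⟨k, ?_⟩
    simp only at hk ⊢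
    rw [← proj_fmap σ hτ hB, ← proj_fmap σ hτ hB, ← hk, map_zpow]
  · let p : S →* Subgroup.zpowers (σ (proj τ B g)) :=
      (σ.comp S.subtype).codRestrict _ (fun x => x.2)
    have h1 : Group.IsSolvable p.ker := Group.isSolvable_of_comm (by
      intro a b
      apply Subtype.ext; apply Subtype.ext
      exact hσ _ _ (congrArg Subtype.val a.2) (congrArg Subtype.val b.2))
    have h2 : Group.IsSolvable (Subgroup.zpowers (σ (proj τ B g))) :=
      Group.isSolvable_of_comm (by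
        rintro ⟨_, k, rfl⟩ ⟨_, m, rfl⟩
        exact Subtype.ext ((Commute.refl _).zpow_zpow k m))
    exact Generated.solvable _ (Group.isSolvable_of_ker_le_range p.ker.subtype p (by simp))

theorem gam_sep (σ : G →* G') {τ : G} {τ' : G'} {B : Subgroup G} {B' : Subgroup G'}
    (hτ : σ τ = τ') (hB : ∀ b ∈ B, σ b ∈ B') (η : G →* Multiplicative ℤ)
    (hη : η τ = Multiplicative.ofAdd 1) (hBη : B ≤ η.ker) (hker : Generated Q η.ker) (M : ℕ)
    (hM : ∀ b ∈ B, ∀ u : G, b ≠ 1 → σ b = 1 → u * b * u⁻¹ ∈ B → (η u).toAdd ≤ M)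
    (h : Generated Q (Gam τ' B')) : Generated Q (Gam τ B) := by
  refine Generated.ext' (fmap σ hτ hB) h fun g => ?_
  set L := (Subgroup.zpowers (fmap σ hτ hB g)).comap (fmap σ hτ hB)
  have hL : ∀ x ∈ L, ∃ k : ℤ, fmap σ hτ hB x = fmap σ hτ hB g ^ k ∧
      (hgt (cj τ B) x).toAdd = k * (hgt (cj τ B) g).toAdd := by
    rintro x ⟨k, hk⟩
    simp only at hk
    refine ⟨k, hk.symm, ?_⟩
    rw [← hgt_fmap σ hτ hB, ← hk, map_zpow, toAdd_zpow, hgt_fmap, smul_eq_mul]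
  by_cases hg : (hgt (cj τ B) g).toAdd = 0
  · refine gam_proj τ B L η.ker ?_ hker
    intro x hx
    obtain ⟨k, -, hk⟩ := hL x hx
    rw [MonoidHom.mem_ker, eta_proj η hη hBη, ← toAdd_eq_zero, hk, hg, mul_zero]
  · obtain ⟨V, T, ρ, h, hT, hadj, -, hh, hedge, hst⟩ := exists_bs_tree (cj τ B)
    refine Generated.of_sep T (ρ.comp L.subtype) hT (fun g => hadj g) h
      ((hgt (cj τ B)).comp L.subtype) (fun g => hh g) hedge M ?_ ?_
    · intro x p q hp hq hx
      obtain ⟨y, hy, hy'⟩ := hst p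
      obtain ⟨z, hz, hz'⟩ := hst q
      obtain ⟨b, hb⟩ := hy' x hp
      obtain ⟨b', hb'⟩ := hz' x hq
      obtain ⟨k, hk1, hk2⟩ := hL x x.2
      have h0 : (hgt (cj τ B) x).toAdd = 0 := by
        have := hh x p
        rw [show ρ x p = p from hp] at this
        omega
      have hk : k = 0 := by
        rw [h0] at hk2
        exact (mul_eq_zero.1 hk2.symm).resolve_right hg
      have h1 := proj_fmap σ hτ hB x
      rw [hk1, hk, zpow_zero, hb] at h1
      simp only [map_one, map_mul, proj_of, map_inv] at h1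
      have h2 : σ b = 1 := by
        have : σ b = (σ (proj τ B y))⁻¹ * (σ (proj τ B y) * σ b * (σ (proj τ B y))⁻¹) *
          σ (proj τ B y) := by group
        rw [this, ← h1]; simp
      have h3 : (b : G) ≠ 1 := by
        intro e
        apply hx
        apply Subtype.ext
        rw [hb, show b = 1 from Subtype.ext e]
        simp
      have h4 : proj τ B (z⁻¹ * y) * b * (proj τ B (z⁻¹ * y))⁻¹ = b' := by
        have e : z⁻¹ * y * of b * (z⁻¹ * y)⁻¹ = of b' := by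
          have : z⁻¹ * y * of b * (z⁻¹ * y)⁻¹ = z⁻¹ * (y * of b * y⁻¹) * z := by group
          rw [this, ← hb, hb']; group
        rw [← proj_of τ B b', ← e]
        simp
      have := hM b b.2 (proj τ B (z⁻¹ * y)) h3 h2 (h4 ▸ b'.2)
      rw [eta_proj η hη hBη, map_mul, map_inv, toAdd_mul, toAdd_inv] at this
      omega
    · refine Generated.of_map_le L.subtype _ (hgt (cj τ B)).ker (fun x _ hx => Subtype.ext hx)
        (fun x hx => hx) (gam_proj τ B _ η.ker ?_ hker)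
      intro x hx
      rw [MonoidHom.mem_ker, eta_proj η hη hBη]
      exact hx

/-- A group with an epimorphism onto `ℤ` is the directed colimit of the HNN extensions of the
finitely generated subgroups of the kernel. -/
theorem gam_colimit (η : G →* Multiplicative ℤ) (τ : G) (hη : η τ = Multiplicative.ofAdd 1)
    (h : ∀ B : Subgroup G, B ≤ η.ker → B.FG → Generated Q (Gam τ B)) : Generated Q G := by
  let I := {B : Subgroup G // B ≤ η.ker ∧ B.FG}
  have : Nonempty I := ⟨⟨⊥, bot_le, Subgroup.FG.bot⟩⟩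
  have hdir : ∀ i j : I, ∃ k : I, i ≤ k ∧ j ≤ k := fun i j =>
    ⟨⟨i.1 ⊔ j.1, sup_le i.2.1 j.2.1, i.2.2.sup j.2.2⟩, le_sup_left (a := i.1),
      le_sup_right (a := i.1)⟩
  have hmem : ∀ b ∈ η.ker, ∃ i : I, b ∈ i.1 := fun b hb =>
    ⟨⟨Subgroup.zpowers b, (Subgroup.zpowers_le).2 hb, ⟨{b}, by
      simp [Subgroup.zpowers_eq_closure]⟩⟩, Subgroup.mem_zpowers b⟩
  let f : ∀ i j : I, i ≤ j → Gam τ i.1 →* Gam τ j.1 := fun i j hij =>
    fmap (MonoidHom.id G) rfl (fun b hb => hij hb)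
  have hconjN : ∀ (m : ℤ) b, b ∈ η.ker → τ ^ m * b * (τ ^ m)⁻¹ ∈ η.ker := fun m b hb =>
    (MonoidHom.normal_ker η).conj_mem b hb _
  have hconj : ∀ (m : ℤ) b, b ∈ η.ker → ∃ i : I, ∀ j : I, i ≤ j →
      ∃ (h1 : b ∈ j.1) (h2 : τ ^ m * b * (τ ^ m)⁻¹ ∈ j.1),
        (t ^ m * of ⟨b, h1⟩ : Gam τ j.1) = of ⟨_, h2⟩ * t ^ m := by
    intro m b hb
    induction m using Int.induction_on with
    | zero =>
      obtain ⟨i, hi⟩ := hmem b hb
      exact ⟨i, fun j hij => ⟨hij hi, by simpa using hij hi, by simp⟩⟩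
    | succ m ih =>
      obtain ⟨i, hi⟩ := ih
      obtain ⟨i', hi'⟩ := hmem _ (hconjN (m + 1) b hb)
      obtain ⟨k, hk, hk'⟩ := hdir i i'
      refine ⟨k, fun j hj => ?_⟩
      obtain ⟨h1, h2, h3⟩ := hi j (hk.trans hj)
      have h4 : τ ^ ((m : ℤ) + 1) * b * (τ ^ ((m : ℤ) + 1))⁻¹ ∈ j.1 := (hk'.trans hj) hi'
      have e : τ * (τ ^ (m : ℤ) * b * (τ ^ (m : ℤ))⁻¹) * τ⁻¹ =
          τ ^ ((m : ℤ) + 1) * b * (τ ^ ((m : ℤ) + 1))⁻¹ := by group
      refine ⟨h1, h4, ?_⟩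
      have h5 := t_conj τ j.1 _ h2 (e ▸ h4)
      have h6 : (of ⟨τ * (τ ^ (m : ℤ) * b * (τ ^ (m : ℤ))⁻¹) * τ⁻¹, e ▸ h4⟩ :
          Gam τ j.1) = of ⟨_, h4⟩ := by
        congr 1
        exact Subtype.ext e
      rw [h6] at h5
      calc (t ^ ((m : ℤ) + 1) * of ⟨b, h1⟩ : Gam τ j.1)
          = t * (t ^ (m : ℤ) * of ⟨b, h1⟩) := by group
        _ = (t * of ⟨_, h2⟩) * t ^ (m : ℤ) := by rw [h3]; group
        _ = _ := by rw [h5]; group
    | pred m ih =>
      obtain ⟨i, hi⟩ := ih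
      obtain ⟨i', hi'⟩ := hmem _ (hconjN (-m - 1) b hb)
      obtain ⟨k, hk, hk'⟩ := hdir i i'
      refine ⟨k, fun j hj => ?_⟩
      obtain ⟨h1, h2, h3⟩ := hi j (hk.trans hj)
      have h4 : τ ^ (-(m : ℤ) - 1) * b * (τ ^ (-(m : ℤ) - 1))⁻¹ ∈ j.1 := (hk'.trans hj) hi'
      have e : τ * (τ ^ (-(m : ℤ) - 1) * b * (τ ^ (-(m : ℤ) - 1))⁻¹) * τ⁻¹ =
          τ ^ (-(m : ℤ)) * b * (τ ^ (-(m : ℤ)))⁻¹ := by group
      refine ⟨h1, h4, ?_⟩
      have h5 := t_conj τ j.1 _ h4 (e ▸ h2)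
      have h6 : (of ⟨τ * (τ ^ (-(m : ℤ) - 1) * b * (τ ^ (-(m : ℤ) - 1))⁻¹) * τ⁻¹, e ▸ h2⟩ :
          Gam τ j.1) = of ⟨_, h2⟩ := by
        congr 1
        exact Subtype.ext e
      rw [h6] at h5
      calc (t ^ (-(m : ℤ) - 1) * of ⟨b, h1⟩ : Gam τ j.1)
          = t⁻¹ * (t ^ (-(m : ℤ)) * of ⟨b, h1⟩) := by group
        _ = t⁻¹ * (of ⟨_, h2⟩ * t) * t ^ (-(m : ℤ) - 1) := by rw [h3]; group
        _ = _ := by rw [← h5]; group
  have hnf : ∀ (i : I) (x : Gam τ i.1), ∃ (b : G) (m : ℤ) (k : I), b ∈ η.ker ∧ i ≤ k ∧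
      ∀ (j : I) (hij : i ≤ j), k ≤ j → ∃ hb : b ∈ j.1, f i j hij x = of ⟨b, hb⟩ * t ^ m := by
    intro i x
    induction x using HNNExtension.induction_on with
    | of b =>
      refine ⟨b, 0, i, i.2.1 b.2, le_rfl, fun j hij _ => ⟨hij b.2, ?_⟩⟩
      simp [f, fmap_of]
    | t =>
      refine ⟨1, 1, i, one_mem _, le_rfl, fun j hij _ => ⟨one_mem _, ?_⟩⟩
      rw [show (⟨1, one_mem _⟩ : j.1) = 1 from rfl]
      simp [f, fmap_t]
    | mul x y ihx ihy =>
      obtain ⟨b, m, k, hb, hk, hx⟩ := ihx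
      obtain ⟨b', m', k', hb', hk', hy⟩ := ihy
      obtain ⟨k'', hk''⟩ := hconj m b' hb'
      obtain ⟨l, hl1, hl2⟩ := hdir k k'
      obtain ⟨l', hl3, hl4⟩ := hdir l k''
      refine ⟨b * (τ ^ m * b' * (τ ^ m)⁻¹), m + m', l', mul_mem hb (hconjN m b' hb'),
        hk.trans (hl1.trans hl3), fun j hij hj => ?_⟩
      obtain ⟨e1, e2⟩ := hx j hij (hl1.trans (hl3.trans hj))
      obtain ⟨e3, e4⟩ := hy j hij (hl2.trans (hl3.trans hj))
      obtain ⟨e5, e6, e7⟩ := hk'' j (hl4.trans hj)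
      refine ⟨mul_mem e1 e6, ?_⟩
      rw [map_mul, e2, e4, mul_assoc, ← mul_assoc (t ^ m), e7, zpow_add, ← mul_assoc,
        ← mul_assoc, ← map_mul, mul_assoc]
      rfl
    | inv x ihx =>
      obtain ⟨b, m, k, hb, hk, hx⟩ := ihx
      obtain ⟨k'', hk''⟩ := hconj (-m) b⁻¹ (inv_mem hb)
      obtain ⟨l, hl1, hl2⟩ := hdir k k''
      refine ⟨τ ^ (-m) * b⁻¹ * (τ ^ (-m))⁻¹, -m, l, hconjN _ _ (inv_mem hb), hk.trans hl1,
        fun j hij hj => ?_⟩
      obtain ⟨e1, e2⟩ := hx j hij (hl1.trans hj)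
      obtain ⟨e5, e6, e7⟩ := hk'' j (hl2.trans hj)
      refine ⟨e6, ?_⟩
      rw [map_inv, e2, ← e7, mul_inv_rev, zpow_neg, ← map_inv]
      rfl
  refine Generated.colimit G I (fun i => Gam τ i.1) f (fun i => proj τ i.1) hdir ?_ ?_ ?_ ?_ ?_
    (fun i => h i.1 i.2.1 i.2.2)
  · intro i x
    have : f i i le_rfl = MonoidHom.id _ := by
      refine hom_ext ?_ ?_
      · ext b; simp [f, fmap_of]
      · simp [f, fmap_t]
    rw [this]; rfl
  · intro i j k hij hjk x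
    have : (f j k hjk).comp (f i j hij) = f i k (hij.trans hjk) := by
      refine hom_ext ?_ ?_
      · ext b; simp [f, fmap_of]
      · simp [f, fmap_t]
    exact DFunLike.congr_fun this x
  · intro i j hij x
    exact proj_fmap _ _ _ x
  · intro g
    have : g * (τ ^ (η g).toAdd)⁻¹ ∈ η.ker := by
      rw [MonoidHom.mem_ker, map_mul, map_inv, map_zpow, hη, ← ofAdd_zsmul]
      simp
    obtain ⟨i, hi⟩ := hmem _ this
    exact ⟨i, of ⟨_, hi⟩ * t ^ (η g).toAdd, by simp⟩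
  · intro i x hx
    obtain ⟨b, m, k, hb, hk, hx'⟩ := hnf i x
    obtain ⟨e1, e2⟩ := hx' k hk le_rfl
    refine ⟨k, hk, ?_⟩
    have h1 : proj τ k.1 (f i k hk x) = 1 := (proj_fmap _ _ _ x).trans hx
    rw [e2] at h1
    simp only [map_mul, proj_of, map_zpow, proj_t] at h1
    have h2 := congrArg (fun g => (η g).toAdd) h1
    have hb' : η b = 1 := hb
    simp only [map_mul, hb', map_zpow, hη, one_mul, toAdd_zpow, toAdd_ofAdd, smul_eq_mul, mul_one,
      map_one, toAdd_one] at h2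
    subst h2
    simp only [zpow_zero, mul_one] at h1
    subst h1
    rw [e2, show (⟨1, e1⟩ : k.1) = 1 from rfl]
    simp

end FJ63
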