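import Pool.Agent.Lib.MP_63c928_gt.LN.HNN
import Pool.Agent.Lib.MP_63c928_gt.LN.Chief

/-! Generalized radical normal subgroups. -/

namespace FJ63

variable {Q : Type} [Group Q]

theorem quot_facts {G : Type} [Group G] (η : G →* Multiplicative ℤ) (hN : LNs η.ker)
    (K : Subgroup G) [K.Normal] (hK : K ≤ η.ker) (hp : PureIn K η.ker) :
    ∃ η' : G ⧸ K →* Multiplicative ℤ, (∀ x, η' (QuotientGroup.mk' K x) = η x) ∧
      LNs η'.ker ∧ PureIn ⊥ η'.ker := by
  refine ⟨QuotientGroup.lift K η hK, fun x => rfl, ?_, ?_⟩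
  · refine (hN.map (QuotientGroup.mk' K)).mono ?_
    intro y hy
    induction y using QuotientGroup.induction_on with | _ x =>
    exact ⟨x, hy, rfl⟩
  · intro y hy n hn h
    induction y using QuotientGroup.induction_on with | _ x =>
    rw [Subgroup.mem_bot, ← QuotientGroup.mk_pow, QuotientGroup.eq_one_iff] at h
    rw [Subgroup.mem_bot, QuotientGroup.eq_one_iff]
    exact hp x hy n hn h

theorem exists_max_pure {G : Type} [Group G] (N B : Subgroup G) (htf : PureIn ⊥ N) :
    ∃ K : Subgroup G, Maximal (fun K => K.Normal ∧ K ≤ N ∧ PureIn K N ∧ K ⊓ B = ⊥) K := by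
  obtain ⟨K, -, hK⟩ := zorn_le_nonempty₀
    {K : Subgroup G | K.Normal ∧ K ≤ N ∧ PureIn K N ∧ K ⊓ B = ⊥} (by
      intro c hc hchain y hy
      have hm : ∀ x, x ∈ sSup c ↔ ∃ K ∈ c, x ∈ K := fun x =>
        Subgroup.mem_sSup_of_directedOn ⟨y, hy⟩ hchain.directedOn
      refine ⟨sSup c, ⟨⟨?_⟩, sSup_le fun K hK => (hc hK).2.1, ?_, ?_⟩, fun z hz => le_sSup hz⟩
      · intro x hx g
        obtain ⟨K, h1, h2⟩ := (hm x).1 hx
        exact (hm _).2 ⟨K, h1, (hc h1).1.conj_mem x h2 g⟩
      · intro x hx n hn h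
        obtain ⟨K, h1, h2⟩ := (hm _).1 h
        exact (hm _).2 ⟨K, h1, (hc h1).2.2.1 x hx n hn h2⟩
      · rw [eq_bot_iff]
        intro x hx
        obtain ⟨K, h1, h2⟩ := (hm x).1 hx.1
        rw [← (hc h1).2.2.2]
        exact Subgroup.mem_inf.2 ⟨h2, hx.2⟩) ⊥ ⟨inferInstance, bot_le, htf, bot_inf_eq B⟩
  exact ⟨K, hK⟩

theorem exists_min_pure {G : Type} [Group G] (N B : Subgroup G) [N.Normal] (hB : B ≤ N)
    (hB0 : B ≠ ⊥) {r : ℕ} (hr : Rk B r)
    (hred : ∀ H : Subgroup G, H.Normal → H ≤ N → PureIn H N → H ⊓ B = ⊥ → H = ⊥) :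
    ∃ H : Subgroup G, H.Normal ∧ H ≤ N ∧ PureIn H N ∧ H ⊓ B ≠ ⊥ ∧
      ∀ H' : Subgroup G, H'.Normal → H' ≤ H → PureIn H' N → H' = ⊥ ∨ H' = H := by
  obtain ⟨ρ, -, h2⟩ := hr
  let 𝓗 := {H : Subgroup G // H.Normal ∧ H ≤ N ∧ PureIn H N ∧ H ≠ ⊥}
  have : Nonempty 𝓗 := ⟨⟨N, inferInstance, le_rfl, fun x hx _ _ _ => hx,
    fun e => hB0 (le_bot_iff.1 (e ▸ hB))⟩⟩
  let H₁ : 𝓗 := Function.argmin (fun H : 𝓗 => ρ (H.1 ⊓ B))
  have hH₁ : ∀ H : 𝓗, ρ (H₁.1 ⊓ B) ≤ ρ (H.1 ⊓ B) := fun H =>
    Function.argmin_le (fun H : 𝓗 => ρ (H.1 ⊓ B)) H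
  have heq : ∀ H : 𝓗, H.1 ≤ H₁.1 → H.1 ⊓ B = H₁.1 ⊓ B := by
    intro H hle
    by_contra hne
    have := h2 _ _ (inf_le_inf_right B hle) inf_le_right
      (fun x hx n hn h => Subgroup.mem_inf.2 ⟨H.2.2.2.1 x (hB hx) n hn h.1, hx⟩) hne
    have := hH₁ H
    omega
  have hm : ∀ x, x ∈ (⨅ H : {H : 𝓗 // H.1 ≤ H₁.1}, H.1.1) ↔ ∀ H : 𝓗, H.1 ≤ H₁.1 → x ∈ H.1 :=
    fun x => by rw [Subgroup.mem_iInf]; exact ⟨fun h H hH => h ⟨H, hH⟩, fun h H => h H.1 H.2⟩
  refine ⟨⨅ H : {H : 𝓗 // H.1 ≤ H₁.1}, H.1.1, ⟨?_⟩, ?_, ?_, ?_, ?_⟩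
  · intro x hx g
    exact (hm _).2 fun H hH => H.2.1.conj_mem x ((hm x).1 hx H hH) g
  · intro x hx
    exact H₁.2.2.1 ((hm x).1 hx H₁ le_rfl)
  · intro x hx n hn h
    exact (hm _).2 fun H hH => H.2.2.2.1 x hx n hn ((hm _).1 h H hH)
  · intro e
    apply H₁.2.2.2.2
    refine hred _ H₁.2.1 H₁.2.2.1 H₁.2.2.2.1 ?_
    refine le_bot_iff.1 (le_of_le_of_eq ?_ e)
    intro x hx
    refine Subgroup.mem_inf.2 ⟨(hm x).2 fun H hH => ?_, hx.2⟩
    rw [← heq H hH] at hx
    exact hx.1
  · intro H' h1 h2 h3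
    by_cases h0 : H' = ⊥
    · exact Or.inl h0
    · right
      have hle : H' ≤ H₁.1 := fun x hx => (hm x).1 (h2 hx) H₁ le_rfl
      exact le_antisymm h2 fun x hx =>
        (hm x).1 hx ⟨H', h1, hle.trans H₁.2.2.1, h3, h0⟩ hle

theorem gam_rank (r : ℕ) : ∀ (G : Type) [Group G] (η : G →* Multiplicative ℤ) (τ : G),
    η τ = Multiplicative.ofAdd 1 → LNs η.ker → PureIn ⊥ η.ker → ∀ B : Subgroup G, B ≤ η.ker →
    Rk B r → Generated Q (Gam τ B) := by
  induction r with
  | zero =>
    intro G _ η τ _ _ htf B hB hr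
    rw [hr.eq_bot (fun x hx => htf x (hB hx))]
    exact gam_finite τ ⊥
  | succ r ih =>
    have step : ∀ (G : Type) [Group G] (η : G →* Multiplicative ℤ) (τ : G),
        η τ = Multiplicative.ofAdd 1 → LNs η.ker → PureIn ⊥ η.ker → ∀ B : Subgroup G,
        B ≤ η.ker → Rk B (r + 1) →
        (∀ H : Subgroup G, H.Normal → H ≤ η.ker → PureIn H η.ker → H ⊓ B = ⊥ → H = ⊥) →
        Generated Q (Gam τ B) := by
      intro G _ η τ hη hN htf B hB hr hred
      by_cases hB0 : B = ⊥
      · rw [hB0]; exact gam_finite τ ⊥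
      obtain ⟨H, hHn, hHN, hHp, hHB, hmin⟩ := exists_min_pure η.ker B hB hB0 hr hred
      obtain ⟨η', h1, h2, h3⟩ := quot_facts η hN H hHN hHp
      obtain ⟨b, hb, hb1⟩ : ∃ b ∈ H ⊓ B, b ≠ 1 := by
        by_contra h
        push Not at h
        exact hHB ((Subgroup.eq_bot_iff_forall _).2 h)
      have hq := ih (G ⧸ H) η' (QuotientGroup.mk' H τ) (by rw [h1, hη]) h2 h3
        (B.map (QuotientGroup.mk' H)) (by
          rintro _ ⟨x, hx, rfl⟩
          rw [MonoidHom.mem_ker, h1]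
          exact hB hx)
        (hr.map_drop (fun x hx => htf x (hB hx)) _ hb.2 hb1 ((QuotientGroup.eq_one_iff b).2 hb.1))
      rcases chief η τ hη hN htf H hHN hHp (fun e => hHB (by rw [e, bot_inf_eq])) hmin hB hr
        with h | ⟨M, h⟩
      · refine gam_ab (QuotientGroup.mk' H) rfl (fun b hb => Subgroup.mem_map_of_mem _ hb) ?_ hq
        intro x y hx hy
        exact h x ((QuotientGroup.eq_one_iff x).1 hx) y ((QuotientGroup.eq_one_iff y).1 hy)
      · refine gam_sep (QuotientGroup.mk' H) rfl (fun b hb => Subgroup.mem_map_of_mem _ hb) η hη hB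
          hN.generated M ?_ hq
        intro x hx u hx1 hxH hu
        exact h x hx u hx1 ((QuotientGroup.eq_one_iff x).1 hxH) hu
    intro G _ η τ hη hN htf B hB hr
    obtain ⟨K, ⟨hKn, hKN, hKp, hKB⟩, hmax⟩ := exists_max_pure η.ker B htf
    obtain ⟨η', h1, h2, h3⟩ := quot_facts η hN K hKN hKp
    have hKB' : ∀ b ∈ B, QuotientGroup.mk' K b = 1 → b = 1 := by
      intro b hb h
      have : b ∈ K ⊓ B := Subgroup.mem_inf.2 ⟨(QuotientGroup.eq_one_iff b).1 h, hb⟩
      rwa [hKB] at this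
    refine gam_inj (QuotientGroup.mk' K) rfl (fun b hb => Subgroup.mem_map_of_mem _ hb) hKB'
      (step (G ⧸ K) η' _ (by rw [h1, hη]) h2 h3 (B.map (QuotientGroup.mk' K)) (by
          rintro _ ⟨x, hx, rfl⟩
          rw [MonoidHom.mem_ker, h1]
          exact hB hx) (hr.map _) ?_)
    intro H hHn hHN hHp hHB
    have hle : H.comap (QuotientGroup.mk' K) ≤ K := by
      refine hmax ⟨hHn.comap _, ?_, ?_, ?_⟩ ?_
      · intro x hx
        rw [MonoidHom.mem_ker, ← h1]
        exact hHN hx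
      · intro x hx n hn h
        refine hHp _ (by rw [MonoidHom.mem_ker, h1]; exact hx) n hn ?_
        rw [← map_pow]
        exact h
      · rw [eq_bot_iff]
        intro x hx
        refine hKB' x hx.2 ?_
        have : QuotientGroup.mk' K x ∈ H ⊓ B.map (QuotientGroup.mk' K) :=
          Subgroup.mem_inf.2 ⟨hx.1, x, hx.2, rfl⟩
        rwa [hHB] at this
      · intro x hx
        rw [Subgroup.mem_comap, QuotientGroup.mk'_apply, (QuotientGroup.eq_one_iff x).2 hx]
        exact one_mem _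
    rw [eq_bot_iff]
    intro y hy
    induction y using QuotientGroup.induction_on with | _ x =>
    exact (QuotientGroup.eq_one_iff x).2 (hle hy)

theorem fg_map {G G' : Type} [Group G] [Group G'] {B : Subgroup G} (h : B.FG) (σ : G →* G') :
    (B.map σ).FG := by
  obtain ⟨s, hs, hf⟩ := (Subgroup.fg_iff B).1 h
  exact (Subgroup.fg_iff _).2 ⟨σ '' s, by rw [← MonoidHom.map_closure, hs], hf.image _⟩

theorem core {G : Type} [Group G] (H : Subgroup G) [H.Normal]
    (h : LFs H ∨ (LNs H ∧ PureIn ⊥ H)) (g : G) :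
    Generated Q ((Subgroup.zpowers (QuotientGroup.mk' H g)).comap (QuotientGroup.mk' H)) := by
  have hH : Generated Q H := h.elim (fun h => h.generated) (fun h => h.1.generated)
  set p := QuotientGroup.mk' H
  set q := p g with hqdef
  set S := (Subgroup.zpowers q).comap p
  by_cases hq : IsOfFinOrder q
  · let φ : S →* Subgroup.zpowers q := (p.comp S.subtype).codRestrict _ (fun x => x.2)
    have : Finite (Subgroup.zpowers q) := finite_zpowers.2 hq
    refine Generated.finiteIndex _ φ.ker (Subgroup.finiteIndex_ker φ) ?_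
    refine Generated.of_map_le S.subtype _ H (fun x _ hx => Subtype.ext hx) ?_ hH
    intro x hx
    exact (QuotientGroup.eq_one_iff _).1 (congrArg Subtype.val hx)
  · have hinj : Function.Injective (zpowersHom (G ⧸ H) q) := fun a b h =>
      Multiplicative.toAdd.injective (injective_zpow_iff_not_isOfFinOrder.2 hq h)
    let φ : S →* (zpowersHom (G ⧸ H) q).range := (p.comp S.subtype).codRestrict _ (fun x => by
      obtain ⟨k, hk⟩ := x.2
      exact ⟨Multiplicative.ofAdd k, hk⟩)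
    let η : S →* Multiplicative ℤ := (MonoidHom.ofInjective hinj).symm.toMonoidHom.comp φ
    have hker : ∀ x : S, x ∈ η.ker → (x : G) ∈ H := by
      intro x hx
      have : φ x = 1 := (MonoidHom.ofInjective hinj).symm.map_eq_one_iff.1 hx
      exact (QuotientGroup.eq_one_iff _).1 (congrArg Subtype.val this)
    have hη : η ⟨g, Subgroup.mem_zpowers q⟩ = Multiplicative.ofAdd 1 := by
      apply (MonoidHom.ofInjective hinj).injective
      change (MonoidHom.ofInjective hinj) ((MonoidHom.ofInjective hinj).symm _) = _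
      rw [MulEquiv.apply_symm_apply]
      apply Subtype.ext
      change q = q ^ (1 : ℤ)
      rw [zpow_one]
    have hmap : ∀ B : Subgroup S, B ≤ η.ker → B.map S.subtype ≤ H := by
      rintro B hB _ ⟨x, hx, rfl⟩
      exact hker x (hB hx)
    refine gam_colimit η _ hη fun B hB hfg => ?_
    rcases h with h | ⟨h, htf⟩
    · have := h _ (hmap B hB) (fg_map hfg _)
      have : Finite B :=
        Finite.of_equiv _ (B.equivMapOfInjective S.subtype S.subtype_injective).toEquiv.symm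
      exact gam_finite _ B
    · have hN : LNs η.ker := by
        intro B hB hfg
        have := h _ (hmap B hB) (fg_map hfg _)
        exact Group.nilpotent_of_mulEquiv
          (B.equivMapOfInjective S.subtype S.subtype_injective).symm
      have := hN B hB hfg
      obtain ⟨r, hr⟩ := rk_of_fg B hfg
      refine gam_rank r S η _ hη hN ?_ B hB hr
      intro x hx n hn h'
      exact Subtype.ext (htf x (hker x hx) n hn (congrArg Subtype.val h'))

theorem reduce_torsion {G : Type} [Group G] (H : Subgroup G) [hH : H.Normal] (h0 : H ≠ ⊥)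
    (h : LNs H ∨ LFs H) : ∃ H' : Subgroup G, H'.Normal ∧ H' ≠ ⊥ ∧ H' ≤ H ∧
      (LFs H' ∨ (LNs H' ∧ PureIn ⊥ H')) := by
  rcases h with h | h
  · by_cases hp : PureIn ⊥ H
    · exact ⟨H, hH, h0, le_rfl, Or.inr ⟨h, hp⟩⟩
    have hR : ∀ x, x ∈ rt H ⊥ ↔ x ∈ H ∧ ∃ n : ℕ, n ≠ 0 ∧ x ^ n ∈ (⊥ : Subgroup G) :=
      fun x => mem_rt h (fun u _ k hk => by simpa using hk)
    refine ⟨rt H ⊥, ⟨?_⟩, ?_, rt_le _ _, Or.inl ?_⟩
    · intro x hx u
      obtain ⟨h1, n, hn, h2⟩ := (hR x).1 hx
      exact (hR _).2 ⟨hH.conj_mem x h1 u, n, hn, by rw [conj_pow]; simpa using h2⟩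
    · intro e
      apply hp
      intro x hx n hn h'
      rw [← e]
      exact (hR x).2 ⟨hx, n, hn, h'⟩
    · intro S hS hfg
      have := h S (hS.trans (rt_le _ _)) hfg
      obtain ⟨s, rfl⟩ := hfg
      refine finite_closure_of_torsion s.finite_toSet fun x hx => ?_
      obtain ⟨-, n, hn, h2⟩ := (hR x).1 (hS (Subgroup.subset_closure hx))
      exact isOfFinOrder_iff_pow_eq_one.2 ⟨n, Nat.pos_of_ne_zero hn, h2⟩
  · exact ⟨H, hH, h0, le_rfl, Or.inl h⟩

theorem comap_zpowers_le {G : Type} [Group G] (K : Subgroup G) [K.Normal] (g x : G)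
    (hx : QuotientGroup.mk' K x ∈ Subgroup.zpowers (QuotientGroup.mk' K g)) :
    x ∈ K ⊔ Subgroup.zpowers g := by
  obtain ⟨k, hk⟩ := hx
  simp only at hk
  rw [← map_zpow, QuotientGroup.mk'_apply, QuotientGroup.mk'_apply, QuotientGroup.eq] at hk
  have : x = g ^ k * ((g ^ k)⁻¹ * x) := by group
  rw [this]
  exact mul_mem (Subgroup.mem_sup_right ⟨k, rfl⟩) (Subgroup.mem_sup_left hk)

theorem radical_sup {G : Type} [Group G] (N : Subgroup G) (h : GeneralizedRadicalIn N) (g : G) :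
    Generated Q (N ⊔ Subgroup.zpowers g : Subgroup G) := by
  obtain ⟨K, -, ⟨hKn, hKN, hK⟩, hmax⟩ := zorn_le_nonempty₀
    {K : Subgroup G | K.Normal ∧ K ≤ N ∧
      ∀ g, Generated Q (K ⊔ Subgroup.zpowers g : Subgroup G)} (by
      intro c hc hchain y hy
      have hm : ∀ x, x ∈ sSup c ↔ ∃ K ∈ c, x ∈ K := fun x =>
        Subgroup.mem_sSup_of_directedOn ⟨y, hy⟩ hchain.directedOn
      refine ⟨sSup c, ⟨⟨?_⟩, sSup_le fun K hK => (hc hK).2.1, ?_⟩, fun z hz => le_sSup hz⟩
      · intro x hx g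
        obtain ⟨K, h1, h2⟩ := (hm x).1 hx
        exact (hm _).2 ⟨K, h1, (hc h1).1.conj_mem x h2 g⟩
      · intro g
        have hm' : ∀ x ∈ sSup c ⊔ Subgroup.zpowers g, ∃ K ∈ c, x ∈ K ⊔ Subgroup.zpowers g := by
          intro x hx
          rw [Subgroup.sup_eq_closure] at hx
          induction hx using Subgroup.closure_induction with
          | mem x hx =>
            rcases hx with hx | hx
            · obtain ⟨K, h1, h2⟩ := (hm x).1 hx
              exact ⟨K, h1, Subgroup.mem_sup_left h2⟩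
            · exact ⟨y, hy, Subgroup.mem_sup_right hx⟩
          | one => exact ⟨y, hy, one_mem _⟩
          | mul x z _ _ ihx ihz =>
            obtain ⟨K, h1, h2⟩ := ihx
            obtain ⟨K', h1', h2'⟩ := ihz
            rcases hchain.total h1 h1' with e | e
            · exact ⟨K', h1', mul_mem (sup_le_sup_right e _ h2) h2'⟩
            · exact ⟨K, h1, mul_mem h2 (sup_le_sup_right e _ h2')⟩
          | inv x _ ih =>
            obtain ⟨K, h1, h2⟩ := ih
            exact ⟨K, h1, inv_mem h2⟩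
        refine Generated.of_local' _ fun s hs => ?_
        have : ∃ K ∈ c, (s : Set G) ⊆ (K ⊔ Subgroup.zpowers g : Subgroup G) := by
          classical
          induction s using Finset.induction_on with
          | empty => exact ⟨y, hy, by simp⟩
          | insert x s _ ih =>
            obtain ⟨K, h1, h2⟩ := ih (fun z hz => hs (by simp [hz]))
            obtain ⟨K', h1', h2'⟩ := hm' x (hs (by simp))
            rw [Finset.coe_insert]
            rcases hchain.total h1 h1' with e | e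
            · exact ⟨K', h1', Set.insert_subset h2' fun z hz => sup_le_sup_right e _ (h2 hz)⟩
            · exact ⟨K, h1, Set.insert_subset (sup_le_sup_right e _ h2') h2⟩
        obtain ⟨K, h1, h2⟩ := this
        exact ⟨_, h2, (hc h1).2.2 g⟩) ⊥ ⟨inferInstance, bot_le, fun g => Generated.of_comm (by
          rw [bot_sup_eq]
          rintro ⟨_, k, rfl⟩ ⟨_, m, rfl⟩
          exact Subtype.ext ((Commute.refl _).zpow_zpow k m))⟩
  rcases hKN.eq_or_lt with e | hlt
  · exact e ▸ hK g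
  exfalso
  obtain ⟨H, hHn, hKH, hHN, hH⟩ := h K hlt
  have hn : (H.map (QuotientGroup.mk' K)).Normal := hHn.map _ (QuotientGroup.mk'_surjective K)
  obtain ⟨H', h1, h2, h3, h4⟩ := reduce_torsion (H.map (QuotientGroup.mk' K)) (by
    rw [Ne, Subgroup.map_eq_bot_iff, QuotientGroup.ker_mk']
    exact hKH.not_ge) (hH.imp LNs.of_ln LFs.of_lf)
  have hle : H'.comap (QuotientGroup.mk' K) ≤ K := by
    refine hmax ⟨h1.comap _, ?_, ?_⟩ ?_
    · refine (Subgroup.comap_mono h3).trans ?_
      rw [Subgroup.comap_map_eq, QuotientGroup.ker_mk']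
      exact sup_le hHN hKN
    · intro g
      set S := H'.comap (QuotientGroup.mk' K) ⊔ Subgroup.zpowers g
      set S' := (Subgroup.zpowers (QuotientGroup.mk' H' (QuotientGroup.mk' K g))).comap
        (QuotientGroup.mk' H')
      have hS : S ≤ S'.comap (QuotientGroup.mk' K) := by
        refine sup_le ?_ (Subgroup.zpowers_le.2 (Subgroup.mem_zpowers _))
        intro x hx
        have : QuotientGroup.mk' H' (QuotientGroup.mk' K x) = 1 :=
          (QuotientGroup.eq_one_iff _).2 hx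
        rw [Subgroup.mem_comap, Subgroup.mem_comap, this]
        exact one_mem _
      refine Generated.ext' (((QuotientGroup.mk' K).comp S.subtype).codRestrict S'
        (fun x => hS x.2)) (core H' h4 _) fun x => ?_
      refine Generated.of_map_le S.subtype _ _ (fun x _ hx => Subtype.ext hx) ?_ (hK x)
      rintro y ⟨k, hk⟩
      exact comap_zpowers_le K x y ⟨k, congrArg Subtype.val hk⟩
    · intro x hx
      rw [Subgroup.mem_comap, QuotientGroup.mk'_apply, (QuotientGroup.eq_one_iff x).2 hx]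
      exact one_mem _
  apply h2
  rw [eq_bot_iff]
  intro y hy
  induction y using QuotientGroup.induction_on with | _ x =>
  exact (QuotientGroup.eq_one_iff x).2 (hle hy)

theorem radical_main (G : Type) [Group G] (N : Subgroup G) [N.Normal]
    (h : GeneralizedRadicalIn N) : Generated (G ⧸ N) G :=
  Generated.ext' (QuotientGroup.mk' N) Generated.base fun g =>
    Generated.of_le (fun x hx => comap_zpowers_le N g x hx) (radical_sup N h g)

end FJ63
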