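import Pool.Agent.Lib.MP_63c928_gt.LN.Basic

/-! Nilpotent groups: torsion, isolators, purity of the upper central series. -/

namespace FJ63

open scoped commutatorElement

/-- A nilpotent group generated by finitely many torsion elements is finite. -/
theorem finite_of_torsion_gen (U : Type) [Group U] [Group.IsNilpotent U] :
    ∀ s : Set U, s.Finite → Subgroup.closure s = ⊤ → (∀ x ∈ s, IsOfFinOrder x) → Finite U := by
  refine Group.nilpotent_center_quotient_ind (P := fun G _ _ => ∀ s : Set G, s.Finite →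
    Subgroup.closure s = ⊤ → (∀ x ∈ s, IsOfFinOrder x) → Finite G) U ?_ ?_
  · intro G _ _ _ _ _ _; infer_instance
  · intro G _ _ ih s hs hgen htor
    have h1 : Finite (G ⧸ Subgroup.center G) := by
      refine ih ((QuotientGroup.mk' (Subgroup.center G)) '' s) (hs.image _) ?_ ?_
      · rw [← MonoidHom.map_closure, hgen]
        exact Subgroup.map_top_of_surjective _ (QuotientGroup.mk'_surjective _)
      · rintro _ ⟨x, hx, rfl⟩
        exact MonoidHom.isOfFinOrder _ (htor x hx)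
    have h2 : (Subgroup.center G).FiniteIndex := Subgroup.finiteIndex_of_finite_quotient
    have h3 : ∀ g : G, IsOfFinOrder (MonoidHom.transferCenterPow G g) := by
      intro g
      have hg : g ∈ Subgroup.closure s := hgen ▸ Subgroup.mem_top g
      induction hg using Subgroup.closure_induction with
      | mem x hx => exact MonoidHom.isOfFinOrder _ (htor x hx)
      | one => simp
      | mul x y _ _ hx hy =>
        rw [map_mul]
        refine Commute.isOfFinOrder_mul ?_ hx hy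
        exact Subtype.ext (Subgroup.mem_center_iff.1 (MonoidHom.transferCenterPow G y).2 _)
      | inv x _ hx => rw [map_inv]; exact hx.inv
    have h4 : ∀ g : G, IsOfFinOrder g := by
      intro g
      have := MonoidHom.isOfFinOrder (Subgroup.center G).subtype (h3 g)
      rw [Subgroup.coe_subtype, MonoidHom.transferCenterPow_apply] at this
      exact this.of_pow h2.index_ne_zero
    have h5 : Group.FG G := Group.fg_iff.2 ⟨s, hgen, hs⟩
    have h6 : Group.FG (Subgroup.center G) := Subgroup.fg_of_index_ne_zero _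
    let inst : CommGroup (Subgroup.center G) :=
      { (inferInstance : Group (Subgroup.center G)) with
        mul_comm := fun a b => Subtype.ext (Subgroup.mem_center_iff.1 b.2 _) }
    have h7 : Finite (Subgroup.center G) :=
      @CommGroup.finite_of_fg_isMulTorsion _ inst h6 (fun z =>
        (Subgroup.center G).subtype_injective.isOfFinOrder_iff.1 (h4 z))
    exact Finite.of_subgroup_quotient (Subgroup.center G)

variable {G : Type} [Group G]

theorem finite_closure_of_torsion {s : Set G} (hs : s.Finite)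
    [Group.IsNilpotent (Subgroup.closure s)] (htor : ∀ x ∈ s, IsOfFinOrder x) :
    Finite (Subgroup.closure s) := by
  refine finite_of_torsion_gen _ _ (hs.preimage Subtype.val_injective.injOn)
    Subgroup.closure_closure_coe_preimage ?_
  intro x hx
  exact (Subgroup.closure s).subtype_injective.isOfFinOrder_iff.1 (htor x hx)

theorem pow_mem_of_gen {s : Set G} (hs : s.Finite) [Group.IsNilpotent (Subgroup.closure s)]
    (K : Subgroup G) (hK : ∀ u ∈ Subgroup.closure s, ∀ k ∈ K, u * k * u⁻¹ ∈ K)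
    (htor : ∀ x ∈ s, ∃ n : ℕ, n ≠ 0 ∧ x ^ n ∈ K) :
    ∀ x ∈ Subgroup.closure s, ∃ n : ℕ, n ≠ 0 ∧ x ^ n ∈ K := by
  set U := Subgroup.closure s
  have hN : (K.subgroupOf U).Normal := ⟨fun k hk u => hK u u.2 k hk⟩
  have hfin : Finite (U ⧸ K.subgroupOf U) := by
    refine finite_of_torsion_gen _ ((QuotientGroup.mk' (K.subgroupOf U)) '' (Subtype.val ⁻¹' s))
      ((hs.preimage Subtype.val_injective.injOn).image _) ?_ ?_
    · rw [← MonoidHom.map_closure, Subgroup.closure_closure_coe_preimage]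
      exact Subgroup.map_top_of_surjective _ (QuotientGroup.mk'_surjective _)
    · rintro _ ⟨x, hx, rfl⟩
      obtain ⟨n, hn, hxn⟩ := htor x hx
      rw [isOfFinOrder_iff_pow_eq_one]
      refine ⟨n, Nat.pos_of_ne_zero hn, ?_⟩
      rw [← map_pow, QuotientGroup.mk'_apply, QuotientGroup.eq_one_iff]
      exact hxn
  intro x hx
  obtain ⟨n, hn, h⟩ := isOfFinOrder_iff_pow_eq_one.1
    (isOfFinOrder_of_finite (QuotientGroup.mk' (K.subgroupOf U) ⟨x, hx⟩))
  rw [← map_pow, QuotientGroup.mk'_apply, QuotientGroup.eq_one_iff] at h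
  exact ⟨n, hn.ne', h⟩

/-- The isolator of `K` in `N`. -/
def rt (N K : Subgroup G) : Subgroup G :=
  Subgroup.closure {x | x ∈ N ∧ ∃ n : ℕ, n ≠ 0 ∧ x ^ n ∈ K}

theorem rt_le (N K : Subgroup G) : rt N K ≤ N :=
  (Subgroup.closure_le N).2 fun _ hx => hx.1

theorem mem_rt {N K : Subgroup G} (hN : LNs N) (hK : ∀ u ∈ N, ∀ k ∈ K, u * k * u⁻¹ ∈ K)
    {x : G} : x ∈ rt N K ↔ x ∈ N ∧ ∃ n : ℕ, n ≠ 0 ∧ x ^ n ∈ K := by
  refine ⟨fun hx => ⟨rt_le N K hx, ?_⟩, fun hx => Subgroup.subset_closure hx⟩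
  induction hx using Subgroup.closure_induction with
  | mem x hx => exact hx.2
  | one => exact ⟨1, one_ne_zero, by simp⟩
  | mul x y hx hy ihx ihy =>
    have hle : Subgroup.closure ({x, y} : Set G) ≤ N := by
      rw [Subgroup.closure_le]
      rintro z (rfl | rfl)
      · exact rt_le N K hx
      · exact rt_le N K hy
    have hfin : ({x, y} : Set G).Finite := Set.toFinite _
    have := hN _ hle ((Subgroup.fg_iff _).2 ⟨_, rfl, hfin⟩)
    refine pow_mem_of_gen hfin K (fun u hu => hK u (hle hu)) ?_ _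
      (mul_mem (Subgroup.subset_closure (by simp)) (Subgroup.subset_closure (by simp)))
    rintro z (rfl | rfl)
    · exact ihx
    · exact ihy
  | inv x _ ih =>
    obtain ⟨n, hn, h⟩ := ih
    exact ⟨n, hn, by rw [inv_pow]; exact inv_mem h⟩

/-- `E` is isolated in `B`. -/
def PureIn (E B : Subgroup G) : Prop := ∀ x ∈ B, ∀ n : ℕ, n ≠ 0 → x ^ n ∈ E → x ∈ E

theorem rt_pure {N K : Subgroup G} (hN : LNs N) (hK : ∀ u ∈ N, ∀ k ∈ K, u * k * u⁻¹ ∈ K) :
    PureIn (rt N K) N := by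
  intro x hx n hn h
  obtain ⟨-, m, hm, h'⟩ := (mem_rt hN hK).1 h
  exact (mem_rt hN hK).2 ⟨hx, n * m, mul_ne_zero hn hm, by rwa [pow_mul]⟩

theorem commutator_pow_of_commute {x u : G} (h : Commute ⁅x, u⁆ x) (n : ℕ) :
    ⁅x ^ n, u⁆ = ⁅x, u⁆ ^ n := by
  induction n with
  | zero => simp
  | succ n ih =>
    rw [pow_succ', commutatorElement_mul_left_eq_conj_mul, ih, ← (h.pow_left n).eq,
      mul_inv_cancel_right, pow_succ]

theorem upper_pure (U : Type) [Group U] [Group.IsNilpotent U] (htf : PureIn (⊥ : Subgroup U) ⊤)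
    (i : ℕ) : PureIn (Subgroup.upperCentralSeries U i) ⊤ := by
  have hA : ∀ i, ∀ x ∈ Subgroup.upperCentralSeries U (i + 1), ∀ n : ℕ, n ≠ 0 →
      x ^ n ∈ Subgroup.upperCentralSeries U i → x ∈ Subgroup.upperCentralSeries U i := by
    intro i
    induction i with
    | zero => intro x _ n hn h; exact htf x trivial n hn h
    | succ i ih =>
      intro x hx n hn h
      rw [Subgroup.mem_upperCentralSeries_succ_iff]
      intro u
      have h1 : ⁅x, u⁆ ∈ Subgroup.upperCentralSeries U (i + 1) :=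
        Subgroup.mem_upperCentralSeries_succ_iff.1 hx u
      refine ih _ h1 n hn ?_
      have h2 := Subgroup.mem_upperCentralSeries_succ_iff.1 h u
      have h3 := Subgroup.mem_upperCentralSeries_succ_iff.1 h1 x
      rw [← QuotientGroup.eq_one_iff, ← QuotientGroup.mk'_apply] at h2 h3 ⊢
      rw [map_commutatorElement, map_commutatorElement, commutatorElement_eq_one_iff_commute] at h3
      rw [map_commutatorElement, map_pow, commutator_pow_of_commute h3] at h2
      rw [map_pow, map_commutatorElement, h2]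
  obtain ⟨c, hc⟩ := Group.IsNilpotent.nilpotent U
  intro x _ n hn h
  have : ∀ k, x ∈ Subgroup.upperCentralSeries U (i + k) → x ∈ Subgroup.upperCentralSeries U i := by
    intro k
    induction k with
    | zero => exact id
    | succ k ih =>
      intro hk
      exact ih (hA _ x hk n hn (Subgroup.upperCentralSeries_mono U (Nat.le_add_right i k) h))
  exact this c (Subgroup.upperCentralSeries_mono U (Nat.le_add_left c i) (hc ▸ trivial))

/-- Normal closure of `F` under `S`. -/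
def nc (S : Subgroup G) (F : Set G) : Subgroup G :=
  Subgroup.closure {y | ∃ x ∈ S, ∃ f ∈ F, y = x * f * x⁻¹}

/-- Commutators of the isolator of `nc S F` with `S`. -/
def cm (S : Subgroup G) (F : Set G) : Subgroup G :=
  Subgroup.closure {c | ∃ p ∈ S, ∃ u ∈ S, (∃ m : ℕ, m ≠ 0 ∧ p ^ m ∈ nc S F) ∧ c = ⁅p, u⁆}

theorem nc_mono {S S' : Subgroup G} {F F' : Set G} (h : S ≤ S') (h' : F ⊆ F') :
    nc S F ≤ nc S' F' :=
  Subgroup.closure_mono fun _ ⟨x, hx, f, hf, e⟩ => ⟨x, h hx, f, h' hf, e⟩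

theorem cm_mono {S S' : Subgroup G} {F : Set G} (h : S ≤ S') : cm S F ≤ cm S' F :=
  Subgroup.closure_mono fun _ ⟨p, hp, u, hu, ⟨m, hm, e⟩, e'⟩ =>
    ⟨p, h hp, u, h hu, ⟨m, hm, nc_mono h le_rfl e⟩, e'⟩

theorem nakayama_nil (U : Subgroup G) [Group.IsNilpotent U] (htf : PureIn ⊥ U) (F : Set G)
    (hF : F ⊆ U) (h : ∀ f ∈ F, ∃ n : ℕ, n ≠ 0 ∧ f ^ n ∈ cm U F) : ∀ f ∈ F, f = 1 := by
  have htf' : PureIn (⊥ : Subgroup U) ⊤ := by
    intro x _ n hn hx
    exact Subtype.ext (htf x x.2 n hn (congrArg Subtype.val hx))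
  let Z : ℕ → Subgroup G := fun i => (Subgroup.upperCentralSeries U i).map U.subtype
  have hZ : ∀ i (x : U), (x : G) ∈ Z i ↔ x ∈ Subgroup.upperCentralSeries U i := fun i x =>
    Subgroup.mem_map_iff_mem (f := U.subtype) U.subtype_injective
  have hpure : ∀ i, PureIn (Z i) U := by
    intro i x hx n hn h
    exact (hZ i ⟨x, hx⟩).2 (upper_pure U htf' i _ trivial n hn ((hZ i _).1 h))
  have hstep : ∀ i, F ⊆ Z (i + 1) → F ⊆ Z i := by
    intro i hi f hf
    obtain ⟨n, hn, hfn⟩ := h f hf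
    refine hpure i f (hF hf) n hn ?_
    have h1 : nc U F ≤ Z (i + 1) := by
      rw [nc, Subgroup.closure_le]
      rintro _ ⟨x, hx, f, hf, rfl⟩
      exact (hZ _ (⟨x, hx⟩ * ⟨f, hF hf⟩ * ⟨x, hx⟩⁻¹)).2
        (Subgroup.Normal.conj_mem inferInstance _ ((hZ _ ⟨f, hF hf⟩).1 (hi hf)) _)
    have h2 : cm U F ≤ Z i := by
      rw [cm, Subgroup.closure_le]
      rintro _ ⟨p, hp, u, hu, ⟨m, hm, e⟩, rfl⟩
      have := (hZ _ ⟨p, hp⟩).1 (hpure _ p hp m hm (h1 e))
      exact (hZ _ ⁅(⟨p, hp⟩ : U), ⟨u, hu⟩⁆).2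
        (Subgroup.mem_upperCentralSeries_succ_iff.1 this ⟨u, hu⟩)
    exact h2 hfn
  obtain ⟨c, hc⟩ := Group.IsNilpotent.nilpotent U
  have : ∀ k, F ⊆ Z k → F ⊆ Z 0 := by
    intro k
    induction k with
    | zero => exact id
    | succ k ih => exact fun hk => ih (hstep k hk)
  have h0 := this c (fun f hf => (hZ c ⟨f, hF hf⟩).2 (hc ▸ trivial))
  intro f hf
  exact congrArg Subtype.val ((hZ 0 ⟨f, hF hf⟩).1 (h0 hf))

theorem exists_fg_closure {N : Subgroup G} (Φ : Subgroup G → Set G)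
    (hmono : ∀ S S', S ≤ S' → Φ S ⊆ Φ S')
    (hΦ : ∀ y ∈ Φ N, ∃ U, U ≤ N ∧ U.FG ∧ y ∈ Φ U) :
    ∀ y ∈ Subgroup.closure (Φ N), ∃ U, U ≤ N ∧ U.FG ∧ y ∈ Subgroup.closure (Φ U) := by
  intro y hy
  induction hy using Subgroup.closure_induction with
  | mem x hx =>
    obtain ⟨U, h1, h2, h3⟩ := hΦ x hx
    exact ⟨U, h1, h2, Subgroup.subset_closure h3⟩
  | one => exact ⟨⊥, bot_le, Subgroup.FG.bot, one_mem _⟩
  | mul x y _ _ ihx ihy =>
    obtain ⟨U, h1, h2, h3⟩ := ihx
    obtain ⟨U', h1', h2', h3'⟩ := ihy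
    exact ⟨U ⊔ U', sup_le h1 h1', h2.sup h2',
      mul_mem (Subgroup.closure_mono (hmono _ _ le_sup_left) h3)
        (Subgroup.closure_mono (hmono _ _ le_sup_right) h3')⟩
  | inv x _ ih =>
    obtain ⟨U, h1, h2, h3⟩ := ih
    exact ⟨U, h1, h2, inv_mem h3⟩

theorem fg_zpowers (x : G) : (Subgroup.zpowers x).FG :=
  ⟨{x}, by simp [Subgroup.zpowers_eq_closure]⟩

theorem nakayama_ln {N : Subgroup G} (hN : LNs N) (htf : PureIn ⊥ N) (F : Set G)
    (hfin : F.Finite) (hF : F ⊆ N) (h : ∀ f ∈ F, ∃ n : ℕ, n ≠ 0 ∧ f ^ n ∈ cm N F) :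
    ∀ f ∈ F, f = 1 := by
  have h1 : ∀ y ∈ nc N F, ∃ U, U ≤ N ∧ U.FG ∧ y ∈ nc U F := by
    refine exists_fg_closure (fun S => {y | ∃ x ∈ S, ∃ f ∈ F, y = x * f * x⁻¹})
      (fun S S' h _ ⟨x, hx, f, hf, e⟩ => ⟨x, h hx, f, hf, e⟩) ?_
    rintro _ ⟨x, hx, f, hf, rfl⟩
    exact ⟨Subgroup.zpowers x, Subgroup.zpowers_le.2 hx, fg_zpowers x,
      x, Subgroup.mem_zpowers x, f, hf, rfl⟩
  have h2 : ∀ y ∈ cm N F, ∃ U, U ≤ N ∧ U.FG ∧ y ∈ cm U F := by
    refine exists_fg_closure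
      (fun S => {c | ∃ p ∈ S, ∃ u ∈ S, (∃ m : ℕ, m ≠ 0 ∧ p ^ m ∈ nc S F) ∧ c = ⁅p, u⁆})
      (fun S S' h _ ⟨p, hp, u, hu, ⟨m, hm, e⟩, e'⟩ =>
        ⟨p, h hp, u, h hu, ⟨m, hm, nc_mono h le_rfl e⟩, e'⟩) ?_
    rintro _ ⟨p, hp, u, hu, ⟨m, hm, e⟩, rfl⟩
    obtain ⟨U, a1, a2, a3⟩ := h1 _ e
    refine ⟨U ⊔ (Subgroup.zpowers p ⊔ Subgroup.zpowers u),
      sup_le a1 (sup_le (Subgroup.zpowers_le.2 hp) (Subgroup.zpowers_le.2 hu)),
      a2.sup ((fg_zpowers p).sup (fg_zpowers u)), p, ?_, u, ?_,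
      ⟨m, hm, nc_mono le_sup_left le_rfl a3⟩, rfl⟩
    · exact Subgroup.mem_sup_right (Subgroup.mem_sup_left (Subgroup.mem_zpowers p))
    · exact Subgroup.mem_sup_right (Subgroup.mem_sup_right (Subgroup.mem_zpowers u))
  have h3 : ∀ s : Set G, s.Finite → s ⊆ F → ∃ U, U ≤ N ∧ U.FG ∧
      ∀ f ∈ s, f ∈ U ∧ ∃ n : ℕ, n ≠ 0 ∧ f ^ n ∈ cm U F := by
    intro s hs
    induction s, hs using Set.Finite.induction_on with
    | empty => exact fun _ => ⟨⊥, bot_le, Subgroup.FG.bot, by simp⟩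
    | @insert f s _ _ ih =>
      intro hsub
      obtain ⟨U, a1, a2, a3⟩ := ih (fun x hx => hsub (Or.inr hx))
      obtain ⟨n, hn, e⟩ := h f (hsub (Or.inl rfl))
      obtain ⟨U', b1, b2, b3⟩ := h2 _ e
      refine ⟨U ⊔ (U' ⊔ Subgroup.zpowers f),
        sup_le a1 (sup_le b1 (Subgroup.zpowers_le.2 (hF (hsub (Or.inl rfl))))),
        a2.sup (b2.sup (fg_zpowers f)), ?_⟩
      rintro x (rfl | hx)
      · exact ⟨Subgroup.mem_sup_right (Subgroup.mem_sup_right (Subgroup.mem_zpowers x)), n, hn,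
          cm_mono (le_sup_left.trans le_sup_right) b3⟩
      · obtain ⟨c1, m, hm, c2⟩ := a3 x hx
        exact ⟨Subgroup.mem_sup_left c1, m, hm, cm_mono le_sup_left c2⟩
  obtain ⟨U, a1, a2, a3⟩ := h3 F hfin le_rfl
  have := hN U a1 a2
  exact nakayama_nil U (fun x hx => htf x (a1 hx)) F (fun f hf => (a3 f hf).1)
    (fun f hf => (a3 f hf).2)

end FJ63
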