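import Pool.Agent.Lib.MP_63c928_gt.LN.Nil

/-! Chains of isolated subgroups of a finitely generated nilpotent group have bounded length. -/

namespace FJ63

open scoped commutatorElement

theorem ab_rank (A : Type) [CommGroup A] [Group.FG A] :
    ∃ (r : ℕ) (ρ : Subgroup A → ℕ), (∀ E, ρ E ≤ r) ∧ Monotone ρ ∧
      ∀ E E', E ≤ E' → ρ E = ρ E' → ∀ x ∈ E', ∃ n : ℕ, n ≠ 0 ∧ x ^ n ∈ E := by
  have hfin : Module.Finite ℤ (Additive A) := Module.Finite.iff_addGroup_fg.2 inferInstance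
  let φ : Subgroup A → Submodule ℤ (Additive A) := fun E =>
    AddSubgroup.toIntSubmodule (Subgroup.toAddSubgroup E)
  have hφ : ∀ E (x : A), Additive.ofMul x ∈ φ E ↔ x ∈ E := fun E x => Iff.rfl
  have hmono : ∀ E E', E ≤ E' → φ E ≤ φ E' := fun E E' h x hx => h hx
  refine ⟨Module.finrank ℤ (Additive A), fun E => Module.finrank ℤ (φ E),
    fun E => Submodule.finrank_le _, fun E E' h => Submodule.finrank_mono (hmono E E' h), ?_⟩
  intro E E' hle heq x hx
  have h1 := Submodule.finrank_quotient_add_finrank ((φ E).comap (φ E').subtype)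
  rw [(Submodule.comapSubtypeEquivOfLe (hmono E E' hle)).finrank_eq] at h1
  have h2 : Module.finrank ℤ (φ E' ⧸ (φ E).comap (φ E').subtype) = 0 := by
    simp only at heq
    omega
  obtain ⟨a, ha, h3⟩ := Module.finrank_eq_zero_iff.1 h2
    (Submodule.Quotient.mk ⟨Additive.ofMul x, hx⟩)
  rw [← Submodule.Quotient.mk_smul, Submodule.Quotient.mk_eq_zero] at h3
  have h4 : x ^ a ∈ E := h3
  refine ⟨a.natAbs, Int.natAbs_ne_zero.2 ha, ?_⟩
  rcases Int.natAbs_eq a with h | h
  · rw [← zpow_natCast, ← h]; exact h4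
  · rw [← zpow_natCast, ← inv_mem_iff, ← zpow_neg, ← h]; exact h4

theorem lower_gen (U : Type) [Group U] [Group.FG U] (i : ℕ) :
    ∃ T : Set U, T.Finite ∧ T ⊆ (⊤ : Subgroup U).lowerCentralSeries i ∧
      (⊤ : Subgroup U).lowerCentralSeries i ≤
        Subgroup.closure T ⊔ (⊤ : Subgroup U).lowerCentralSeries (i + 1) := by
  obtain ⟨S, hS, hSf⟩ := Group.fg_iff.1 (inferInstance : Group.FG U)
  have hc : ∀ i x u, x ∈ (⊤ : Subgroup U).lowerCentralSeries i →
      ⁅x, u⁆ ∈ (⊤ : Subgroup U).lowerCentralSeries (i + 1) := fun i x u hx =>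
    Subgroup.commutator_mem_commutator hx trivial
  induction i with
  | zero => exact ⟨S, hSf, fun _ _ => trivial, by rw [hS]; exact le_sup_left⟩
  | succ i ih =>
    obtain ⟨T, h1, h2, h3⟩ := ih
    have hsub : Set.image2 (fun x s => ⁅x, s⁆) T S ⊆
        (⊤ : Subgroup U).lowerCentralSeries (i + 1) := by
      rintro _ ⟨x, hx, s, -, rfl⟩
      exact hc i x s (h2 hx)
    refine ⟨Set.image2 (fun x s => ⁅x, s⁆) T S, h1.image2 _ hSf, hsub, ?_⟩
    set K := Subgroup.closure (Set.image2 (fun x s => ⁅x, s⁆) T S) ⊔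
      (⊤ : Subgroup U).lowerCentralSeries (i + 1 + 1) with hK
    have hKle : K ≤ (⊤ : Subgroup U).lowerCentralSeries (i + 1) :=
      sup_le ((Subgroup.closure_le _).2 hsub)
        (Subgroup.lowerCentralSeries_antitone _ (Nat.le_succ _))
    have hN : K.Normal := ⟨fun y hy g => by
      have : g * y * g⁻¹ = (⁅y, g⁆)⁻¹ * y := by simp only [commutatorElement_def]; group
      rw [this]
      exact mul_mem (inv_mem (Subgroup.mem_sup_right (hc _ y g (hKle hy)))) hy⟩
    have hle : (⊤ : Subgroup U).lowerCentralSeries i ≤ Subgroup.upperCentralSeriesStep K := by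
      refine h3.trans (sup_le ?_ ?_)
      · rw [Subgroup.closure_le]
        intro x hx u
        have hu : u ∈ Subgroup.closure S := hS ▸ Subgroup.mem_top u
        induction hu using Subgroup.closure_induction with
        | mem s hs => exact Subgroup.mem_sup_left (Subgroup.subset_closure ⟨x, hx, s, hs, rfl⟩)
        | one => simp
        | mul a b _ _ ha hb =>
          rw [commutatorElement_mul_right_eq_mul_conj, mul_assoc, mul_assoc, ← mul_assoc a]
          exact mul_mem ha (hN.conj_mem _ hb a)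
        | inv a _ ha =>
          rw [commutatorElement_inv_right, ← commutatorElement_inv]
          exact hN.conj_mem' _ (inv_mem ha) a
      · intro x hx u
        exact Subgroup.mem_sup_right (hc _ x u hx)
    rw [Subgroup.lowerCentralSeries_succ, Subgroup.commutator_le]
    intro x hx u _
    exact hle hx u

variable {G G' : Type} [Group G] [Group G']

/-- Chains of isolated subgroups of `B` have length at most `r`. -/
def Rk (B : Subgroup G) (r : ℕ) : Prop :=
  ∃ ρ : Subgroup G → ℕ, (∀ E, ρ E ≤ r) ∧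
    ∀ E E', E ≤ E' → E' ≤ B → PureIn E B → E ≠ E' → ρ E < ρ E'

theorem rk_top (U : Type) [Group U] [Group.FG U] [Group.IsNilpotent U] :
    ∃ r, Rk (⊤ : Subgroup U) r := by
  have key : ∀ i, (∃ (r : ℕ) (ρ : Subgroup U → ℕ), (∀ E, ρ E ≤ r) ∧ Monotone ρ ∧
      ∀ E E', E ≤ E' → PureIn E ⊤ → ρ E = ρ E' →
        E' ⊓ (⊤ : Subgroup U).lowerCentralSeries (i + 1) ≤ E) →
      ∃ (r : ℕ) (ρ : Subgroup U → ℕ), (∀ E, ρ E ≤ r) ∧ Monotone ρ ∧
      ∀ E E', E ≤ E' → PureIn E ⊤ → ρ E = ρ E' →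
        E' ⊓ (⊤ : Subgroup U).lowerCentralSeries i ≤ E := by
    rintro i ⟨r, ρ, h1, h2, h3⟩
    let q := QuotientGroup.mk' ((⊤ : Subgroup U).lowerCentralSeries (i + 1))
    let A := ((⊤ : Subgroup U).lowerCentralSeries i).map q
    let inst : CommGroup A :=
      { (inferInstance : Group A) with
        mul_comm := by
          rintro ⟨_, x, hx, rfl⟩ ⟨_, y, -, rfl⟩
          apply Subtype.ext
          refine commutatorElement_eq_one_iff_mul_comm.1 ?_
          change ⁅q x, q y⁆ = 1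
          rw [← map_commutatorElement]
          exact (QuotientGroup.eq_one_iff _).2 (Subgroup.commutator_mem_commutator hx trivial) }
    have hfg : Group.FG A := by
      obtain ⟨T, t1, t2, t3⟩ := lower_gen U i
      rw [Group.fg_iff_subgroup_fg, Subgroup.fg_iff]
      refine ⟨q '' T, ?_, t1.image _⟩
      rw [← MonoidHom.map_closure]
      refine le_antisymm (Subgroup.map_mono ((Subgroup.closure_le _).2 t2)) ?_
      refine (Subgroup.map_mono t3).trans ?_
      rw [Subgroup.map_sup, QuotientGroup.map_mk'_self, sup_bot_eq]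
    obtain ⟨r', ρ', a1, a2, a3⟩ := @ab_rank A inst hfg
    let φ : Subgroup U → Subgroup A := fun E =>
      ((E ⊓ (⊤ : Subgroup U).lowerCentralSeries i).map q).subgroupOf A
    have hφ : Monotone φ := fun E E' h =>
      Subgroup.subgroupOf_mono A (Subgroup.map_mono (inf_le_inf_right _ h))
    refine ⟨r + r', fun E => ρ E + ρ' (φ E), fun E => add_le_add (h1 E) (a1 _),
      fun E E' h => add_le_add (h2 h) (a2 (hφ h)), ?_⟩
    intro E E' hle hp heq x hx
    have b1 := h2 hle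
    have b2 := a2 (hφ hle)
    simp only at heq
    obtain ⟨n, hn, e, he, hq⟩ := a3 (φ E) (φ E') (hφ hle) (by omega) ⟨q x, x, hx.2, rfl⟩
      ⟨x, hx, rfl⟩
    have hq' : q e = q (x ^ n) := by rw [map_pow]; exact hq
    have hy : e⁻¹ * x ^ n ∈ (⊤ : Subgroup U).lowerCentralSeries (i + 1) :=
      QuotientGroup.eq.1 hq'
    have hy' := h3 E E' hle hp (by omega)
      (Subgroup.mem_inf.2 ⟨E'.mul_mem (E'.inv_mem (hle he.1)) (E'.pow_mem hx.1 n), hy⟩)
    refine hp x trivial n hn ?_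
    simpa using E.mul_mem he.1 hy'
  obtain ⟨c, hc⟩ := Subgroup.nilpotent_iff_lowerCentralSeries.1
    (inferInstance : Group.IsNilpotent U)
  have all : ∀ k i, i + k = c → ∃ (r : ℕ) (ρ : Subgroup U → ℕ), (∀ E, ρ E ≤ r) ∧ Monotone ρ ∧
      ∀ E E', E ≤ E' → PureIn E ⊤ → ρ E = ρ E' →
        E' ⊓ (⊤ : Subgroup U).lowerCentralSeries i ≤ E := by
    intro k
    induction k with
    | zero =>
      rintro i rfl
      refine ⟨0, fun _ => 0, fun _ => le_rfl, monotone_const, ?_⟩
      intro E E' _ _ _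
      rw [add_zero] at hc
      rw [hc, inf_bot_eq]
      exact bot_le
    | succ k ih => exact fun i hi => key i (ih (i + 1) (by omega))
  obtain ⟨r, ρ, h1, h2, h3⟩ := all c 0 (zero_add c)
  refine ⟨r, ρ, h1, ?_⟩
  intro E E' hle _ hp hne
  refine lt_of_le_of_ne (h2 hle) fun heq => hne (le_antisymm hle ?_)
  simpa using h3 E E' hle hp heq

theorem rk_of_fg (B : Subgroup G) (hfg : B.FG) [Group.IsNilpotent B] : ∃ r, Rk B r := by
  have : Group.FG B := (Group.fg_iff_subgroup_fg B).2 hfg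
  obtain ⟨r, ρ, h1, h2⟩ := rk_top B
  refine ⟨r, fun E => ρ (E.subgroupOf B), fun E => h1 _, ?_⟩
  intro E E' hle hB hp hne
  refine h2 _ _ (Subgroup.subgroupOf_mono B hle) le_top (fun x _ n hn hx => hp x x.2 n hn hx) ?_
  intro heq
  apply hne
  refine le_antisymm hle fun x hx => ?_
  have : (⟨x, hB hx⟩ : B) ∈ E'.subgroupOf B := hx
  rw [← heq] at this
  exact this

theorem rk_map_aux {B : Subgroup G} (σ : G →* G') {E E' : Subgroup G'} (hle : E ≤ E')
    (hB : E' ≤ B.map σ) (hp : PureIn E (B.map σ)) (hne : E ≠ E') :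
    E.comap σ ⊓ B ≤ E'.comap σ ⊓ B ∧ PureIn (E.comap σ ⊓ B) B ∧
      E.comap σ ⊓ B ≠ E'.comap σ ⊓ B := by
  refine ⟨inf_le_inf_right _ (Subgroup.comap_mono hle), ?_, ?_⟩
  · intro x hx n hn h
    exact ⟨hp (σ x) ⟨x, hx, rfl⟩ n hn (by rw [← map_pow]; exact h.1), hx⟩
  · intro heq
    apply hne
    refine le_antisymm hle fun y hy => ?_
    obtain ⟨x, hx, rfl⟩ := hB hy
    have : x ∈ E'.comap σ ⊓ B := ⟨hy, hx⟩
    rw [← heq] at this
    exact this.1

theorem Rk.map {B : Subgroup G} {r : ℕ} (h : Rk B r) (σ : G →* G') : Rk (B.map σ) r := by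
  obtain ⟨ρ, h1, h2⟩ := h
  refine ⟨fun E => ρ (E.comap σ ⊓ B), fun E => h1 _, ?_⟩
  intro E E' hle hB hp hne
  obtain ⟨a1, a2, a3⟩ := rk_map_aux σ hle hB hp hne
  exact h2 _ _ a1 inf_le_right a2 a3

theorem Rk.map_drop {B : Subgroup G} {r : ℕ} (h : Rk B (r + 1)) (htf : PureIn ⊥ B)
    (σ : G →* G') {b : G} (hb : b ∈ B) (hb1 : b ≠ 1) (hσ : σ b = 1) : Rk (B.map σ) r := by
  obtain ⟨ρ, h1, h2⟩ := h
  refine ⟨fun E => ρ (E.comap σ ⊓ B) - 1, fun E => by
    have := h1 (E.comap σ ⊓ B)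
    simp only
    omega, ?_⟩
  intro E E' hle hB hp hne
  obtain ⟨a1, a2, a3⟩ := rk_map_aux σ hle hB hp hne
  have b1 := h2 _ _ a1 inf_le_right a2 a3
  have b2 := h2 ⊥ (E.comap σ ⊓ B) bot_le inf_le_right htf (by
    intro e
    have : b ∈ E.comap σ ⊓ B :=
      Subgroup.mem_inf.2 ⟨by rw [Subgroup.mem_comap, hσ]; exact one_mem _, hb⟩
    rw [← e] at this
    exact hb1 this)
  simp only
  omega

theorem Rk.eq_bot {B : Subgroup G} (h : Rk B 0) (htf : PureIn ⊥ B) : B = ⊥ := by
  obtain ⟨ρ, h1, h2⟩ := h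
  by_contra hne
  have := h2 ⊥ B bot_le le_rfl htf (Ne.symm hne)
  have := h1 B
  omega

end FJ63
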