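import Pool.Agent.Lib.MP_63c928_gt.LN.Basic

/-! Trees: fixed geodesics, collapsing a subforest, the tree of cylinders. -/

namespace FJ63

open SimpleGraph

theorem reach_inv {V : Type} {G : SimpleGraph V} {α : Sort _} (f : V → α)
    (hf : ∀ x y, G.Adj x y → f x = f y) {x y : V} (h : G.Reachable x y) : f x = f y := by
  obtain ⟨p⟩ := h
  induction p with
  | nil => rfl
  | cons h _ ih => exact (hf _ _ h).trans ih

theorem reach_ind {V : Type} {G : SimpleGraph V} {x : V} (P : V → Prop) (h0 : P x)
    (hs : ∀ y z, G.Reachable x y → G.Adj y z → P y → P z) {y : V} (h : G.Reachable x y) : P y := by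
  rw [reachable_iff_reflTransGen] at h
  induction h with
  | refl => exact h0
  | tail h1 h2 ih => exact hs _ _ ((reachable_iff_reflTransGen _ _).2 h1) h2 ih

theorem acyclic_of_side {V : Type} (G : SimpleGraph V)
    (h : ∀ a b, G.Adj a b → ∃ f : V → Prop, f a ≠ f b ∧
      ∀ x y, G.Adj x y → s(x, y) ≠ s(a, b) → f x = f y) : G.IsAcyclic := by
  rw [isAcyclic_iff_forall_adj_isBridge]
  intro a b hab
  obtain ⟨f, hf, hf'⟩ := h a b hab
  rw [isBridge_iff]
  intro hr
  refine hf (reach_inv f ?_ hr)
  intro x y hxy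
  rw [deleteEdges_adj] at hxy
  exact hf' x y hxy.1 (by simpa using hxy.2)

theorem fix_walk {V : Type} {T : SimpleGraph V} (hT : T.IsAcyclic) (σ : Equiv.Perm V)
    (hσ : ∀ u v, T.Adj u v → T.Adj (σ u) (σ v)) {x y : V} (p : T.Walk x y) (hp : p.IsPath)
    (hx : σ x = x) (hy : σ y = y) : ∀ v ∈ p.support, σ v = v := by
  let f : T →g T := ⟨σ, fun {u v} h => hσ u v h⟩
  have hq : ((p.map f).copy hx hy).IsPath := by
    rw [Walk.isPath_copy]
    exact Walk.IsPath.map σ.injective hp
  have : (⟨_, hq⟩ : T.Path x y) = ⟨p, hp⟩ := (hT.subsingleton_path x y).elim _ _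
  have h2 : ((p.map f).copy hx hy).support = p.support :=
    congrArg (fun q : T.Path x y => q.1.support) this
  rw [Walk.support_copy, Walk.support_map] at h2
  have h3 : p.support.map f = p.support.map id := by rw [h2, List.map_id]
  intro v hv
  exact List.map_inj_left.1 h3 v hv

theorem fix_nbr {V : Type} {T T₀ : SimpleGraph V} (hT : T.IsAcyclic) (h0 : T₀ ≤ T)
    (σ : Equiv.Perm V) (hσ : ∀ u v, T.Adj u v → T.Adj (σ u) (σ v)) {x y : V}
    (hx : σ x = x) (hy : σ y = y) (hne : x ≠ y) (hr : T₀.Reachable x y) :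
    ∃ z, T₀.Adj x z ∧ σ z = z := by
  obtain ⟨p, hp⟩ := hr.exists_isPath
  have := fix_walk hT σ hσ (p.mapLe h0) (hp.mapLe h0) hx hy
  cases p with
  | nil => exact absurd rfl hne
  | cons h p' =>
    refine ⟨_, h, this _ ?_⟩
    simp

/-- The graph obtained from `T` by collapsing every component of `T₀` to a point. -/
def collapse {V : Type} (T T₀ : SimpleGraph V) : SimpleGraph T₀.ConnectedComponent where
  Adj a b := a ≠ b ∧ ∃ u w, T.Adj u w ∧ T₀.connectedComponentMk u = a ∧
    T₀.connectedComponentMk w = b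
  symm := ⟨fun _ _ ⟨h, u, w, h1, h2, h3⟩ => ⟨h.symm, w, u, h1.symm, h3, h2⟩⟩
  loopless := ⟨fun _ h => h.1 rfl⟩

theorem collapse_key {V : Type} {T T₀ : SimpleGraph V} (hT : T.IsAcyclic) (h0 : T₀ ≤ T)
    {u w : V} (huw : T.Adj u w) (hne : T₀.connectedComponentMk u ≠ T₀.connectedComponentMk w) :
    ∃ f : T₀.ConnectedComponent → Prop, f (T₀.connectedComponentMk u) ≠
      f (T₀.connectedComponentMk w) ∧ ∀ x y, T.Adj x y → s(x, y) ≠ s(u, w) →
        f (T₀.connectedComponentMk x) = f (T₀.connectedComponentMk y) := by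
  have hb := (isAcyclic_iff_forall_adj_isBridge.1 hT) huw
  rw [isBridge_iff] at hb
  set D := T.deleteEdges {s(u, w)} with hD
  have hstep : ∀ x y, T.Adj x y → s(x, y) ≠ s(u, w) → D.Reachable u x = D.Reachable u y := by
    intro x y hxy hne'
    have : D.Adj x y := by rw [hD, deleteEdges_adj]; exact ⟨hxy, by simpa using hne'⟩
    exact propext ⟨fun h => h.trans this.reachable, fun h => h.trans this.symm.reachable⟩
  have hinv : ∀ x y, T₀.Reachable x y → D.Reachable u x = D.Reachable u y := by
    intro x y hxy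
    refine reach_inv (fun x => D.Reachable u x) ?_ hxy
    intro x y hxy
    refine hstep x y (h0 hxy) ?_
    intro he
    apply hne
    rw [Sym2.eq_iff] at he
    rcases he with ⟨rfl, rfl⟩ | ⟨rfl, rfl⟩
    · exact ConnectedComponent.sound hxy.reachable
    · exact ConnectedComponent.sound hxy.symm.reachable
  refine ⟨ConnectedComponent.lift (fun x => D.Reachable u x)
    (fun x y p _ => hinv x y ⟨p⟩), ?_, ?_⟩
  · simp only [ConnectedComponent.lift_mk]
    intro h
    exact hb (h ▸ Reachable.refl u)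
  · intro x y hxy hne'
    simp only [ConnectedComponent.lift_mk]
    exact hstep x y hxy hne'

theorem collapse_unique {V : Type} {T T₀ : SimpleGraph V} (hT : T.IsAcyclic) (h0 : T₀ ≤ T)
    {u w u' w' : V} (huw : T.Adj u w)
    (hne : T₀.connectedComponentMk u ≠ T₀.connectedComponentMk w) (huw' : T.Adj u' w')
    (hu : T₀.connectedComponentMk u' = T₀.connectedComponentMk u)
    (hw : T₀.connectedComponentMk w' = T₀.connectedComponentMk w) : u' = u ∧ w' = w := by
  obtain ⟨f, hf, hf'⟩ := collapse_key hT h0 huw hne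
  by_cases he : s(u', w') = s(u, w)
  · rw [Sym2.eq_iff] at he
    rcases he with h | ⟨rfl, rfl⟩
    · exact h
    · exact absurd hu.symm hne
  · have := hf' u' w' huw' he
    rw [hu, hw] at this
    exact absurd this hf

theorem collapse_isTree {V : Type} {T T₀ : SimpleGraph V} (hT : T.IsTree) (h0 : T₀ ≤ T) :
    (collapse T T₀).IsTree := by
  refine ⟨?_, ?_⟩
  · have : Nonempty V := hT.connected.nonempty
    have : Nonempty T₀.ConnectedComponent := ⟨T₀.connectedComponentMk (Classical.arbitrary V)⟩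
    refine ⟨?_⟩
    intro a b
    induction a using ConnectedComponent.ind with | _ x =>
    induction b using ConnectedComponent.ind with | _ y =>
    refine reach_ind (fun y => (collapse T T₀).Reachable (T₀.connectedComponentMk x)
      (T₀.connectedComponentMk y)) (Reachable.refl _) ?_ (hT.connected.preconnected x y)
    intro y z _ hyz ih
    by_cases h : T₀.connectedComponentMk y = T₀.connectedComponentMk z
    · exact h ▸ ih
    · exact ih.trans (Adj.reachable ⟨h, y, z, hyz, rfl, rfl⟩)
  · refine acyclic_of_side _ ?_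
    rintro _ _ ⟨hne, u, w, huw, rfl, rfl⟩
    obtain ⟨f, hf, hf'⟩ := collapse_key hT.isAcyclic h0 huw hne
    refine ⟨f, hf, ?_⟩
    rintro _ _ ⟨-, x, y, hxy, rfl, rfl⟩ hne'
    refine hf' x y hxy ?_
    intro he
    apply hne'
    rw [Sym2.eq_iff] at he ⊢
    rcases he with ⟨rfl, rfl⟩ | ⟨rfl, rfl⟩
    · exact Or.inl ⟨rfl, rfl⟩
    · exact Or.inr ⟨rfl, rfl⟩

theorem exists_compAct {L V : Type} [Group L] (T₀ : SimpleGraph V) (ρ : L →* Equiv.Perm V)
    (h : ∀ g u v, T₀.Adj u v → T₀.Adj (ρ g u) (ρ g v)) :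
    ∃ ρ' : L →* Equiv.Perm T₀.ConnectedComponent,
      ∀ g v, ρ' g (T₀.connectedComponentMk v) = T₀.connectedComponentMk (ρ g v) := by
  let F : L →* Function.End T₀.ConnectedComponent :=
    { toFun := fun g => ConnectedComponent.map (⟨ρ g, fun {u v} huv => h g u v huv⟩ : T₀ →g T₀)
      map_one' := by
        funext a
        induction a using ConnectedComponent.ind with | _ x =>
        simp [Function.End.one_def]
      map_mul' := by
        intro g g'
        funext a
        induction a using ConnectedComponent.ind with | _ x =>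
        change T₀.connectedComponentMk (ρ (g * g') x) = T₀.connectedComponentMk (ρ g (ρ g' x))
        rw [map_mul, Equiv.Perm.mul_apply] }
  exact ⟨F.toHomPerm, fun g v => rfl⟩

theorem collapse_adj_act {L V : Type} [Group L] {T T₀ : SimpleGraph V} {ρ : L →* Equiv.Perm V}
    (h : ∀ g u v, T.Adj u v → T.Adj (ρ g u) (ρ g v))
    {ρ' : L →* Equiv.Perm T₀.ConnectedComponent}
    (hρ : ∀ g v, ρ' g (T₀.connectedComponentMk v) = T₀.connectedComponentMk (ρ g v)) :
    ∀ g a b, (collapse T T₀).Adj a b → (collapse T T₀).Adj (ρ' g a) (ρ' g b) := by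
  rintro g _ _ ⟨hne, u, w, huw, rfl, rfl⟩
  exact ⟨fun he => hne ((ρ' g).injective he), ρ g u, ρ g w, h g u w huw, (hρ g u).symm,
    (hρ g w).symm⟩

/-- Layers: the edges of `T` sorted by the lower level of their endpoints. -/
def lay {V : Type} (T : SimpleGraph V) (κ : V → ℤ) : SimpleGraph (V × ℤ) where
  Adj p q := p.2 = q.2 ∧ T.Adj p.1 q.1 ∧ min (κ p.1) (κ q.1) = p.2
  symm := ⟨fun _ _ ⟨h1, h2, h3⟩ => ⟨h1.symm, h2.symm, by rw [min_comm, h3, h1]⟩⟩
  loopless := ⟨fun _ h => T.irrefl h.2.1⟩

/-- The tree of cylinders. -/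
def cyl {V : Type} (T : SimpleGraph V) (κ : V → ℤ) :
    SimpleGraph (V ⊕ (lay T κ).ConnectedComponent) where
  Adj a b := ∃ v c, (a = Sum.inl v ∧ b = Sum.inr ((lay T κ).connectedComponentMk (v, c))) ∨
    (b = Sum.inl v ∧ a = Sum.inr ((lay T κ).connectedComponentMk (v, c)))
  symm := ⟨fun _ _ ⟨v, c, h⟩ => ⟨v, c, h.symm⟩⟩
  loopless := ⟨by
    rintro _ ⟨v, c, ⟨rfl, h⟩ | ⟨rfl, h⟩⟩ <;> cases h⟩

theorem lay_level {V : Type} {T : SimpleGraph V} {κ : V → ℤ} {p q : V × ℤ}
    (h : (lay T κ).Reachable p q) : p.2 = q.2 :=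
  reach_inv (G := lay T κ) (fun p : V × ℤ => p.2) (fun _ _ h => h.1) h

/-- `T` with the edges at `v` removed. -/
def away {V : Type} (T : SimpleGraph V) (v : V) : SimpleGraph V where
  Adj x y := T.Adj x y ∧ x ≠ v ∧ y ≠ v
  symm := ⟨fun _ _ ⟨h1, h2, h3⟩ => ⟨h1.symm, h3, h2⟩⟩
  loopless := ⟨fun _ h => T.irrefl h.1⟩

theorem cyl_isTree {V : Type} {T : SimpleGraph V} (hT : T.IsTree) (κ : V → ℤ) :
    (cyl T κ).IsTree := by
  refine ⟨?_, ?_⟩
  · have : Nonempty V := hT.connected.nonempty
    have h1 : ∀ x y, (cyl T κ).Reachable (Sum.inl x) (Sum.inl y) := by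
      intro x y
      refine reach_ind (fun y => (cyl T κ).Reachable (Sum.inl x) (Sum.inl y))
        (Reachable.refl _) ?_ (hT.connected.preconnected x y)
      intro y z _ hyz ih
      have e : (lay T κ).connectedComponentMk (y, min (κ y) (κ z)) =
          (lay T κ).connectedComponentMk (z, min (κ y) (κ z)) :=
        ConnectedComponent.sound (Adj.reachable ⟨rfl, hyz, rfl⟩)
      have a1 : (cyl T κ).Adj (Sum.inl y)
          (Sum.inr ((lay T κ).connectedComponentMk (y, min (κ y) (κ z)))) :=
        ⟨y, _, Or.inl ⟨rfl, rfl⟩⟩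
      have a2 : (cyl T κ).Adj (Sum.inr ((lay T κ).connectedComponentMk (y, min (κ y) (κ z))))
          (Sum.inl z) := ⟨z, _, Or.inr ⟨rfl, by rw [e]⟩⟩
      exact (ih.trans a1.reachable).trans a2.reachable
    have h2 : ∀ a, ∃ x, (cyl T κ).Reachable a (Sum.inl x) := by
      rintro (x | Z)
      · exact ⟨x, Reachable.refl _⟩
      · induction Z using ConnectedComponent.ind with | _ p =>
        exact ⟨p.1, Adj.reachable ⟨p.1, p.2, Or.inr ⟨rfl, rfl⟩⟩⟩
    refine ⟨?_⟩
    intro a b
    obtain ⟨x, hx⟩ := h2 a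
    obtain ⟨y, hy⟩ := h2 b
    exact (hx.trans (h1 x y)).trans hy.symm
  · have main : ∀ (v : V) (c : ℤ), ∃ f : V ⊕ (lay T κ).ConnectedComponent → Prop,
        f (Sum.inl v) ≠ f (Sum.inr ((lay T κ).connectedComponentMk (v, c))) ∧
        ∀ x c', ¬ (x = v ∧ (lay T κ).connectedComponentMk (x, c') =
          (lay T κ).connectedComponentMk (v, c)) →
          f (Sum.inl x) = f (Sum.inr ((lay T κ).connectedComponentMk (x, c'))) := by
      intro v c
      let F : ℤ → V → Prop := fun c x =>
        ∃ w, T.Adj v w ∧ min (κ v) (κ w) = c ∧ (away T v).Reachable w x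
      have hFv : ∀ c x, F c x → x ≠ v := by
        rintro c x ⟨w, hw, -, hr⟩
        exact reach_ind (G := away T v) (fun x => x ≠ v) hw.ne.symm (fun y z _ h _ => h.2.2) hr
      have hA : ∀ c q, (lay T κ).Reachable (v, c) q → q.1 = v ∨ F c q.1 := by
        intro c q hq
        refine reach_ind (fun q : V × ℤ => q.1 = v ∨ F c q.1) (Or.inl rfl) ?_ hq
        intro y z hy hyz ih
        by_cases hz : z.1 = v
        · exact Or.inl hz
        right
        rcases ih with h | h
        · refine ⟨z.1, h ▸ hyz.2.1, ?_, Reachable.refl _⟩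
          rw [← h, hyz.2.2]
          exact (lay_level hy).symm
        · have hy1 := hFv _ _ h
          obtain ⟨w, h1, h2, h3⟩ := h
          exact ⟨w, h1, h2, h3.trans (Adj.reachable ⟨hyz.2.1, hy1, hz⟩)⟩
      have hB : ∀ p q, (lay T κ).Reachable p q → F c p.1 →
          F c q.1 ∨ (lay T κ).Reachable p (v, p.2) := by
        intro p q hq hp
        refine reach_ind (fun q : V × ℤ => F c q.1 ∨ (lay T κ).Reachable p (v, p.2))
          (Or.inl hp) ?_ hq
        intro y z hy hyz ih
        rcases ih with h | h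
        · by_cases hz : z.1 = v
          · right
            have : z = (v, p.2) := Prod.ext hz (lay_level (hy.trans hyz.reachable)).symm
            exact this ▸ hy.trans hyz.reachable
          · left
            have hy1 := hFv _ _ h
            obtain ⟨w, h1, h2, h3⟩ := h
            exact ⟨w, h1, h2, h3.trans (Adj.reachable ⟨hyz.2.1, hy1, hz⟩)⟩
        · exact Or.inr h
      have hC : ∀ c' x, F c x → F c' x → c = c' := by
        rintro c' x ⟨w, h1, h2, h3⟩ ⟨w', h1', h2', h3'⟩
        by_contra hcc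
        have hww : w ≠ w' := by
          rintro rfl
          exact hcc (h2.symm.trans h2')
        have hb := (isAcyclic_iff_forall_adj_isBridge.1 hT.isAcyclic) h1
        rw [isBridge_iff] at hb
        apply hb
        have hle : away T v ≤ T.deleteEdges {s(v, w)} := by
          intro x y hxy
          rw [deleteEdges_adj]
          refine ⟨hxy.1, ?_⟩
          simp only [Set.mem_singleton_iff, Sym2.eq_iff]
          rintro (⟨h, -⟩ | ⟨-, h⟩)
          · exact hxy.2.1 h
          · exact hxy.2.2 h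
        have e1 : (T.deleteEdges {s(v, w)}).Adj v w' := by
          rw [deleteEdges_adj]
          refine ⟨h1', ?_⟩
          simp only [Set.mem_singleton_iff, Sym2.eq_iff]
          rintro (⟨-, h⟩ | ⟨h, -⟩)
          · exact hww h.symm
          · exact h1.ne h
        exact e1.reachable.trans ((h3'.trans h3.symm).mono hle)
      refine ⟨Sum.elim (F c) (fun Z => Z = (lay T κ).connectedComponentMk (v, c) ∨
        ∃ p, (lay T κ).connectedComponentMk p = Z ∧ F c p.1), ?_, ?_⟩
      · simp only [Sum.elim_inl, Sum.elim_inr, true_or]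
        intro h
        exact hFv c v (h ▸ trivial) rfl
      · intro x c' hne
        simp only [Sum.elim_inl, Sum.elim_inr]
        refine propext ⟨fun h => Or.inr ⟨(x, c'), rfl, h⟩, ?_⟩
        have case1 : (lay T κ).connectedComponentMk (x, c') =
            (lay T κ).connectedComponentMk (v, c) → F c x := by
          intro h
          rcases hA c (x, c') (ConnectedComponent.exact h).symm with h' | h'
          · exact absurd ⟨h', h⟩ hne
          · exact h'
        rintro (h | ⟨p, hp, hF⟩)
        · exact case1 h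
        · have hr := ConnectedComponent.exact hp
          rcases hB p _ hr hF with h' | h'
          · exact h'
          · rcases hA p.2 p h'.symm with h'' | h''
            · exact absurd h'' (hFv _ _ hF)
            · have := hC _ _ hF h''
              apply case1
              rw [← hp, this]
              exact ConnectedComponent.sound h'
    refine acyclic_of_side _ ?_
    have main2 : ∀ (v : V) (c : ℤ), ∃ f : V ⊕ (lay T κ).ConnectedComponent → Prop,
        f (Sum.inl v) ≠ f (Sum.inr ((lay T κ).connectedComponentMk (v, c))) ∧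
        ∀ x y, (cyl T κ).Adj x y →
          s(x, y) ≠ s(Sum.inl v, Sum.inr ((lay T κ).connectedComponentMk (v, c))) →
          f x = f y := by
      intro v c
      obtain ⟨f, hf, hf'⟩ := main v c
      refine ⟨f, hf, ?_⟩
      rintro _ _ ⟨x, c', ⟨rfl, rfl⟩ | ⟨rfl, rfl⟩⟩ hne
      · refine hf' x c' ?_
        rintro ⟨rfl, h⟩
        exact hne (by rw [h])
      · refine (hf' x c' ?_).symm
        rintro ⟨rfl, h⟩
        exact hne (by rw [h, Sym2.eq_swap])
    rintro _ _ ⟨v, c, ⟨rfl, rfl⟩ | ⟨rfl, rfl⟩⟩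
    · exact main2 v c
    · obtain ⟨f, hf, hf'⟩ := main2 v c
      refine ⟨f, hf.symm, fun x y h hne => hf' x y h ?_⟩
      rwa [Sym2.eq_swap (a := Sum.inl v)]

end FJ63
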